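import Pool.Agent.helper14.NS.Q150a.PN11

/-!
Generated: certificates.
-/

namespace Pool.Agent.helper14.NS.Q150a

open Pool.Agent.helper31.IA (Z)
open Pool.Agent.helper31.IX (Op XOps runX Cov CovD cov_split covD_split)
open Pool.Agent.helper31.IC (TD)
open Pool.Agent.helper63.RG (reloc)
open Pool.Agent.helper63.NF hiding TD
open Pool.Agent.helper4.NS
open Pool.Agent.helper14.CF (xE covD_E)
open Pool.Agent.helper14.NR (share)

mutual
theorem A11_c0_t6 : CovD 1 gA11 [(6806306816, 524288000), (137438953472, 137438953472), (68719476736, 68719476736)] :=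
  covD_E kA11_eq (.n 2 (.l 2) (.n 1 (.n 2 (.l 2) (.n 1 (.n 2 (.l 2) (.n 1 (.n 1 (.l 0) (.l 0)) (.l 0))) (.l 0))) (.l 0)))
    [(6806306816, 524288000), (137438953472, 137438953472), (68719476736, 68719476736)] rfl (by decide +kernel)
theorem A11_c0_t8 : CovD 1 gA11 [(6806306816, 524288000), (68719476736, 68719476736), (206158430208, 68719476736)] :=
  covD_E kA11_eq (.n 1 (.n 1 (.n 1 (.n 2 (.n 1 (.l 0) (.l 0)) (.l 0)) (.n 2 (.n 1 (.l 0) (.l 0)) (.l 0))) (.n 1 (.n 2 (.n 1 (.l 0) (.l 0)) (.l 0)) (.n 2 (.l 0) (.l 0)))) (.n 1 (.n 2 (.l 0) (.l 0)) (.n 1 (.l 0) (.l 0))))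
    [(6806306816, 524288000), (68719476736, 68719476736), (206158430208, 68719476736)] rfl (by decide +kernel)
end

mutual
theorem A11_c0_t9 : CovD 1 gA11 [(6806306816, 524288000), (206158430208, 68719476736), (206158430208, 68719476736)] :=
  covD_E kA11_eq (.n 1 (.n 0 (.l 0) (.l 0)) (.l 0))
    [(6806306816, 524288000), (206158430208, 68719476736), (206158430208, 68719476736)] rfl (by decide +kernel)
theorem A11_c0_t11 : CovD 1 gA11 [(6806306816, 524288000), (68719476736, 68719476736), (412316860416, 137438953472)] :=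
  covD_E kA11_eq (.n 1 (.n 1 (.n 2 (.n 2 (.l 0) (.l 0)) (.l 0)) (.n 2 (.n 2 (.l 0) (.l 0)) (.l 0))) (.n 1 (.n 2 (.n 1 (.l 0) (.l 0)) (.l 0)) (.n 2 (.n 0 (.l 0) (.l 0)) (.l 0))))
    [(6806306816, 524288000), (68719476736, 68719476736), (412316860416, 137438953472)] rfl (by decide +kernel)
end

mutual
theorem A11_c0_t12 : CovD 1 gA11 [(6806306816, 524288000), (206158430208, 68719476736), (412316860416, 137438953472)] :=
  covD_E kA11_eq (.n 1 (.n 0 (.n 2 (.l 0) (.l 0)) (.n 2 (.l 0) (.l 0))) (.n 2 (.l 0) (.l 0)))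
    [(6806306816, 524288000), (206158430208, 68719476736), (412316860416, 137438953472)] rfl (by decide +kernel)
theorem A11_c0_t14 : CovD 1 gA11 [(6806306816, 524288000), (137438953472, 137438953472), (687194767360, 137438953472)] :=
  covD_E kA11_eq (.n 1 (.n 1 (.n 2 (.n 0 (.l 0) (.l 0)) (.l 0)) (.n 2 (.l 0) (.l 0))) (.n 1 (.n 2 (.l 0) (.l 0)) (.n 2 (.l 0) (.l 0))))
    [(6806306816, 524288000), (137438953472, 137438953472), (687194767360, 137438953472)] rfl (by decide +kernel)
end

mutual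
theorem A11_c0_t15 : CovD 1 gA11 [(6806306816, 524288000), (137438953472, 137438953472), (962072674304, 137438953472)] :=
  covD_E kA11_eq (.n 1 (.n 1 (.n 2 (.l 0) (.l 0)) (.n 2 (.l 0) (.l 0))) (.n 1 (.n 2 (.l 0) (.l 0)) (.n 2 (.l 0) (.l 0))))
    [(6806306816, 524288000), (137438953472, 137438953472), (962072674304, 137438953472)] rfl (by decide +kernel)
theorem A11_c0_t17 : CovD 1 gA11 [(6806306816, 524288000), (137438953472, 137438953472), (1374389534720, 274877906944)] :=
  covD_E kA11_eq (.n 2 (.n 1 (.n 2 (.l 0) (.l 0)) (.n 2 (.n 0 (.l 0) (.l 0)) (.l 0))) (.n 1 (.n 2 (.l 0) (.l 0)) (.n 1 (.l 0) (.l 0))))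
    [(6806306816, 524288000), (137438953472, 137438953472), (1374389534720, 274877906944)] rfl (by decide +kernel)
end

mutual
theorem A11_c0_t18 : CovD 1 gA11 [(6806306816, 524288000), (137438953472, 137438953472), (1924145348608, 274877906944)] :=
  covD_E kA11_eq (.n 2 (.n 1 (.n 1 (.l 0) (.l 0)) (.n 1 (.l 0) (.l 0))) (.n 1 (.n 1 (.l 0) (.l 0)) (.n 0 (.l 0) (.l 0))))
    [(6806306816, 524288000), (137438953472, 137438953472), (1924145348608, 274877906944)] rfl (by decide +kernel)
theorem A11_c0_t20 : CovD 1 gA11 [(6806306816, 524288000), (137438953472, 137438953472), (2748779069440, 549755813888)] :=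
  covD_E kA11_eq (.n 2 (.n 2 (.n 1 (.n 1 (.l 0) (.l 0)) (.n 0 (.l 0) (.l 0))) (.n 1 (.n 2 (.l 0) (.l 0)) (.n 1 (.l 0) (.l 0)))) (.n 2 (.n 1 (.n 2 (.l 0) (.l 0)) (.n 1 (.l 0) (.l 0))) (.n 1 (.n 1 (.l 0) (.l 0)) (.n 1 (.l 0) (.l 0)))))
    [(6806306816, 524288000), (137438953472, 137438953472), (2748779069440, 549755813888)] rfl (by decide +kernel)
end

mutual
theorem A11_c0_t29 : CovD 1 gA11 [(6413090816, 131072000), (68719476736, 68719476736), (3315714752512, 17179869184)] :=
  covD_E kA11_eq (.l 0)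
    [(6413090816, 131072000), (68719476736, 68719476736), (3315714752512, 17179869184)] rfl (by decide +kernel)
theorem A11_c0_t31 : CovD 1 gA11 [(6413090816, 131072000), (34359738368, 34359738368), (3350074490880, 17179869184)] :=
  covD_E kA11_eq (.n 2 (.l 0) (.n 1 (.n 0 (.n 2 (.l 0) (.l 1)) (.n 2 (.l 0) (.l 1))) (.n 2 (.l 0) (.n 0 (.l 1) (.n 0 (.l 1) (.l 1))))))
    [(6413090816, 131072000), (34359738368, 34359738368), (3350074490880, 17179869184)] rfl (by decide +kernel)
end

mutual
theorem A11_c0_t32 : CovD 1 gA11 [(6413090816, 131072000), (103079215104, 34359738368), (3350074490880, 17179869184)] :=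
  covD_E kA11_eq (.n 0 (.n 1 (.n 1 (.n 0 (.l 0) (.l 0)) (.l 0)) (.n 0 (.l 0) (.l 0))) (.n 1 (.n 1 (.l 0) (.l 0)) (.n 0 (.l 0) (.l 0))))
    [(6413090816, 131072000), (103079215104, 34359738368), (3350074490880, 17179869184)] rfl (by decide +kernel)
theorem A11_c0_t33 : CovD 1 gA11 [(6675234816, 131072000), (68719476736, 68719476736), (3332894621696, 34359738368)] :=
  covD_E kA11_eq (.n 2 (.l 0) (.n 1 (.n 2 (.l 0) (.n 0 (.n 1 (.n 1 (.l 0) (.l 0)) (.n 0 (.l 0) (.l 0))) (.n 0 (.n 1 (.l 0) (.l 0)) (.n 1 (.l 0) (.l 0))))) (.n 0 (.n 1 (.n 0 (.l 0) (.l 0)) (.l 0)) (.n 1 (.n 0 (.l 0) (.l 0)) (.l 0)))))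
    [(6675234816, 131072000), (68719476736, 68719476736), (3332894621696, 34359738368)] rfl (by decide +kernel)
end

mutual
theorem A11_c0_t35 : CovD 1 gA11 [(6937378816, 131072000), (68719476736, 68719476736), (3332894621696, 34359738368)] :=
  covD_E kA11_eq (.n 0 (.n 2 (.l 0) (.n 1 (.n 0 (.n 1 (.l 0) (.l 0)) (.n 1 (.l 0) (.l 0))) (.n 1 (.l 0) (.l 0)))) (.n 1 (.n 2 (.l 0) (.n 1 (.l 0) (.l 0))) (.n 1 (.l 0) (.l 0))))
    [(6937378816, 131072000), (68719476736, 68719476736), (3332894621696, 34359738368)] rfl (by decide +kernel)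
theorem A11_c0_t36 : CovD 1 gA11 [(7199522816, 131072000), (68719476736, 68719476736), (3332894621696, 34359738368)] :=
  covD_E kA11_eq (.n 2 (.l 0) (.n 0 (.n 1 (.n 1 (.l 0) (.l 0)) (.n 1 (.l 0) (.l 0))) (.n 1 (.n 1 (.l 0) (.l 0)) (.n 0 (.l 0) (.l 0)))))
    [(7199522816, 131072000), (68719476736, 68719476736), (3332894621696, 34359738368)] rfl (by decide +kernel)
end

mutual
theorem A11_c0_t38 : CovD 1 gA11 [(6544162816, 262144000), (68719476736, 68719476736), (3401614098432, 34359738368)] :=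
  covD_E kA11_eq (.n 0 (.n 1 (.n 0 (.l 1) (.l 1)) (.n 1 (.l 1) (.n 0 (.l 1) (.l 1)))) (.n 0 (.n 1 (.n 0 (.l 1) (.l 1)) (.n 1 (.l 1) (.l 1))) (.n 1 (.n 0 (.l 1) (.l 1)) (.n 1 (.l 1) (.l 1)))))
    [(6544162816, 262144000), (68719476736, 68719476736), (3401614098432, 34359738368)] rfl (by decide +kernel)
theorem A11_c0_t40 : CovD 1 gA11 [(6937378816, 131072000), (68719476736, 68719476736), (3401614098432, 34359738368)] :=
  covD_E kA11_eq (.n 1 (.n 1 (.l 1) (.n 0 (.l 1) (.l 1))) (.n 0 (.n 1 (.l 1) (.n 0 (.l 1) (.l 1))) (.n 1 (.n 0 (.l 1) (.l 1)) (.n 1 (.l 1) (.l 1)))))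
    [(6937378816, 131072000), (68719476736, 68719476736), (3401614098432, 34359738368)] rfl (by decide +kernel)
end

mutual
theorem A11_c0_t41 : CovD 1 gA11 [(7199522816, 131072000), (68719476736, 68719476736), (3401614098432, 34359738368)] :=
  covD_E kA11_eq (.n 2 (.n 1 (.n 1 (.l 1) (.n 0 (.l 1) (.l 1))) (.n 2 (.n 0 (.n 1 (.l 1) (.n 0 (.l 1) (.l 1))) (.n 1 (.n 0 (.l 1) (.l 1)) (.n 1 (.l 1) (.l 1)))) (.l 1))) (.l 1))
    [(7199522816, 131072000), (68719476736, 68719476736), (3401614098432, 34359738368)] rfl (by decide +kernel)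
theorem A11_c0_t42 : CovD 1 gA11 [(6806306816, 524288000), (68719476736, 68719476736), (3504693313536, 68719476736)] :=
  covD_E kA11_eq (.l 1)
    [(6806306816, 524288000), (68719476736, 68719476736), (3504693313536, 68719476736)] rfl (by decide +kernel)
end

mutual
theorem A11_c0_t47 : CovD 1 gA11 [(6544162816, 262144000), (171798691840, 34359738368), (3332894621696, 34359738368)] :=
  covD_E kA11_eq (.n 2 (.l 0) (.n 0 (.n 0 (.n 1 (.l 0) (.l 0)) (.n 1 (.l 0) (.l 0))) (.n 1 (.n 0 (.l 0) (.l 0)) (.l 0))))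
    [(6544162816, 262144000), (171798691840, 34359738368), (3332894621696, 34359738368)] rfl (by decide +kernel)
theorem A11_c0_t48 : CovD 1 gA11 [(6544162816, 262144000), (171798691840, 34359738368), (3401614098432, 34359738368)] :=
  covD_E kA11_eq (.n 2 (.n 0 (.n 0 (.n 1 (.l 1) (.l 1)) (.n 1 (.l 1) (.l 1))) (.n 0 (.n 1 (.l 1) (.n 0 (.l 1) (.l 1))) (.n 0 (.n 1 (.l 1) (.l 1)) (.n 1 (.l 1) (.l 1))))) (.l 1))
    [(6544162816, 262144000), (171798691840, 34359738368), (3401614098432, 34359738368)] rfl (by decide +kernel)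
end

mutual
theorem A11_c0_t49 : CovD 1 gA11 [(6544162816, 262144000), (240518168576, 34359738368), (3367254360064, 68719476736)] :=
  covD_E kA11_eq (.n 2 (.n 0 (.n 0 (.l 0) (.l 0)) (.l 0)) (.n 1 (.n 2 (.n 0 (.n 0 (.l 1) (.l 1)) (.n 0 (.n 0 (.l 1) (.l 1)) (.n 0 (.l 1) (.l 1)))) (.l 1)) (.n 0 (.n 0 (.l 1) (.l 1)) (.n 0 (.n 0 (.l 1) (.l 1)) (.n 0 (.l 1) (.l 1))))))
    [(6544162816, 262144000), (240518168576, 34359738368), (3367254360064, 68719476736)] rfl (by decide +kernel)
theorem A11_c0_t52 : CovD 1 gA11 [(6937378816, 131072000), (206158430208, 68719476736), (3332894621696, 34359738368)] :=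
  covD_E kA11_eq (.n 1 (.n 1 (.l 0) (.l 0)) (.l 0))
    [(6937378816, 131072000), (206158430208, 68719476736), (3332894621696, 34359738368)] rfl (by decide +kernel)
end

mutual
theorem A11_c0_t53 : CovD 1 gA11 [(6937378816, 131072000), (206158430208, 68719476736), (3401614098432, 34359738368)] :=
  covD_E kA11_eq (.n 2 (.n 1 (.n 2 (.n 1 (.n 0 (.n 0 (.l 1) (.l 1)) (.n 1 (.l 1) (.l 1))) (.n 2 (.n 0 (.l 0) (.l 0)) (.l 1))) (.l 1)) (.n 2 (.n 0 (.n 2 (.l 0) (.l 1)) (.n 2 (.l 0) (.l 1))) (.l 1))) (.l 1))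
    [(6937378816, 131072000), (206158430208, 68719476736), (3401614098432, 34359738368)] rfl (by decide +kernel)
theorem A11_c0_t54 : CovD 1 gA11 [(7199522816, 131072000), (206158430208, 68719476736), (3367254360064, 68719476736)] :=
  covD_E kA11_eq (.n 2 (.n 1 (.n 0 (.l 0) (.l 0)) (.l 0)) (.n 2 (.n 1 (.n 2 (.n 1 (.n 2 (.n 0 (.l 0) (.l 0)) (.l 1)) (.n 2 (.l 0) (.n 0 (.l 1) (.l 1)))) (.l 1)) (.n 2 (.n 0 (.n 2 (.l 0) (.l 1)) (.n 0 (.l 0) (.l 0))) (.l 1))) (.l 1)))
    [(7199522816, 131072000), (206158430208, 68719476736), (3367254360064, 68719476736)] rfl (by decide +kernel)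
end

mutual
theorem A11_c0_t55 : CovD 1 gA11 [(6806306816, 524288000), (206158430208, 68719476736), (3504693313536, 68719476736)] :=
  covD_E kA11_eq (.l 1)
    [(6806306816, 524288000), (206158430208, 68719476736), (3504693313536, 68719476736)] rfl (by decide +kernel)
theorem A11_c0_t56 : CovD 1 gA11 [(6806306816, 524288000), (137438953472, 137438953472), (3710851743744, 137438953472)] :=
  covD_E kA11_eq (.l 1)
    [(6806306816, 524288000), (137438953472, 137438953472), (3710851743744, 137438953472)] rfl (by decide +kernel)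
end

mutual
theorem A11_c0_t57 : CovD 1 gA11 [(6806306816, 524288000), (137438953472, 137438953472), (4123168604160, 274877906944)] :=
  covD_E kA11_eq (.l 1)
    [(6806306816, 524288000), (137438953472, 137438953472), (4123168604160, 274877906944)] rfl (by decide +kernel)
theorem A11_c0_t58 : CovD 1 gA11 [(6806306816, 524288000), (137438953472, 137438953472), (6597069766656, 2199023255552)] :=
  covD_E kA11_eq (.n 2 (.n 2 (.l 1) (.l 1)) (.n 2 (.l 1) (.l 1)))
    [(6806306816, 524288000), (137438953472, 137438953472), (6597069766656, 2199023255552)] rfl (by decide +kernel)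
end

mutual
theorem B11_c0_t2 : CovD 1 gB11 [(6806306816, 524288000), (68719476736, 68719476736), (34359738368, 34359738368)] :=
  covD_E kB11_eq (.n 2 (.n 2 (.n 2 (.n 2 (.l 1) (.l 1)) (.n 1 (.l 1) (.l 1))) (.n 1 (.n 2 (.l 1) (.l 1)) (.n 2 (.l 1) (.l 1)))) (.n 2 (.n 2 (.l 1) (.l 1)) (.n 2 (.l 1) (.l 1))))
    [(6806306816, 524288000), (68719476736, 68719476736), (34359738368, 34359738368)] rfl (by decide +kernel)
theorem B11_c0_t3 : CovD 1 gB11 [(6806306816, 524288000), (206158430208, 68719476736), (34359738368, 34359738368)] :=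
  covD_E kB11_eq (.n 2 (.n 2 (.n 0 (.n 2 (.l 1) (.l 1)) (.n 2 (.l 1) (.l 1))) (.n 2 (.l 1) (.l 1))) (.n 2 (.n 2 (.l 1) (.l 1)) (.n 0 (.l 1) (.l 1))))
    [(6806306816, 524288000), (206158430208, 68719476736), (34359738368, 34359738368)] rfl (by decide +kernel)
end

mutual
theorem B11_c0_t4 : CovD 1 gB11 [(6806306816, 524288000), (137438953472, 137438953472), (103079215104, 34359738368)] :=
  covD_E kB11_eq (.n 2 (.n 1 (.n 2 (.l 1) (.l 1)) (.n 2 (.l 1) (.l 1))) (.n 2 (.l 1) (.l 1)))
    [(6806306816, 524288000), (137438953472, 137438953472), (103079215104, 34359738368)] rfl (by decide +kernel)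
theorem C11_c0_t3 : CovD 1 gC11 [(6806306816, 524288000), (17179869184, 17179869184), (549755813888, 549755813888)] :=
  covD_E kC11_eq (.n 2 (.n 2 (.n 2 (.l 0) (.l 0)) (.n 2 (.l 0) (.l 0))) (.n 2 (.n 1 (.n 1 (.l 0) (.l 0)) (.l 0)) (.n 1 (.n 1 (.n 2 (.l 0) (.n 2 (.l 0) (.n 2 (.l 0) (.n 2 (.l 0) (.n 2 (.l 0) (.n 2 (.l 0) (.l 1))))))) (.l 0)) (.l 0))))
    [(6806306816, 524288000), (17179869184, 17179869184), (549755813888, 549755813888)] rfl (by decide +kernel)
end

mutual
theorem C11_c0_t4 : CovD 1 gC11 [(6806306816, 524288000), (51539607552, 17179869184), (549755813888, 549755813888)] :=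
  covD_E kC11_eq (.n 2 (.n 2 (.l 0) (.l 0)) (.n 2 (.l 0) (.l 0)))
    [(6806306816, 524288000), (51539607552, 17179869184), (549755813888, 549755813888)] rfl (by decide +kernel)
theorem C11_c0_t5 : CovD 1 gC11 [(6806306816, 524288000), (103079215104, 34359738368), (549755813888, 549755813888)] :=
  covD_E kC11_eq (.n 2 (.n 2 (.l 0) (.l 0)) (.n 2 (.l 0) (.l 0)))
    [(6806306816, 524288000), (103079215104, 34359738368), (549755813888, 549755813888)] rfl (by decide +kernel)
end

mutual
theorem C11_c0_t6 : CovD 1 gC11 [(6806306816, 524288000), (206158430208, 68719476736), (549755813888, 549755813888)] :=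
  covD_E kC11_eq (.n 2 (.n 2 (.l 0) (.l 0)) (.n 2 (.l 0) (.l 0)))
    [(6806306816, 524288000), (206158430208, 68719476736), (549755813888, 549755813888)] rfl (by decide +kernel)
theorem D11_c0_t1 : CovD 1 gD11 [(6806306816, 524288000), (137438953472, 137438953472), (431805169664, 431805169664)] :=
  covD_E kD11_eq (.n 2 (.n 2 (.n 2 (.n 2 (.l 0) (.l 0)) (.n 2 (.l 0) (.l 0))) (.n 2 (.n 2 (.l 0) (.l 0)) (.n 2 (.l 0) (.l 0)))) (.n 2 (.n 2 (.n 2 (.l 0) (.l 0)) (.n 2 (.l 0) (.l 0))) (.n 2 (.n 2 (.l 0) (.l 0)) (.n 2 (.l 0) (.l 0)))))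
    [(6806306816, 524288000), (137438953472, 137438953472), (431805169664, 431805169664)] rfl (by decide +kernel)
end

mutual
theorem D11_c0_t2 : CovD 1 gD11 [(6806306816, 524288000), (137438953472, 137438953472), (1295415508992, 431805169664)] :=
  covD_E kD11_eq (.n 2 (.n 2 (.n 2 (.n 2 (.l 0) (.l 0)) (.n 2 (.l 0) (.l 0))) (.n 2 (.n 2 (.l 0) (.l 0)) (.n 2 (.l 0) (.l 0)))) (.n 2 (.n 2 (.n 2 (.l 0) (.l 0)) (.n 2 (.l 0) (.l 0))) (.n 2 (.n 2 (.l 0) (.l 0)) (.n 2 (.l 0) (.l 0)))))
    [(6806306816, 524288000), (137438953472, 137438953472), (1295415508992, 431805169664)] rfl (by decide +kernel)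
theorem E11_c0_t2 : CovD 1 gE11 [(6806306816, 524288000), (137438953472, 137438953472), (215902584832, 215902584832)] :=
  covD_E kE11_eq (.n 2 (.l 1) (.n 2 (.n 2 (.n 0 (.n 2 (.l 0) (.l 0)) (.n 2 (.l 0) (.l 0))) (.n 2 (.n 0 (.l 0) (.l 0)) (.l 0))) (.n 2 (.n 2 (.l 0) (.l 0)) (.n 2 (.l 0) (.l 0)))))
    [(6806306816, 524288000), (137438953472, 137438953472), (215902584832, 215902584832)] rfl (by decide +kernel)
end

mutual
theorem E11_c0_t3 : CovD 1 gE11 [(6806306816, 524288000), (137438953472, 137438953472), (647707754496, 215902584832)] :=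
  covD_E kE11_eq (.n 2 (.n 2 (.n 2 (.n 2 (.l 0) (.l 0)) (.n 2 (.l 0) (.l 0))) (.n 2 (.n 2 (.l 0) (.l 0)) (.n 2 (.l 0) (.l 0)))) (.n 2 (.n 2 (.n 2 (.l 0) (.l 0)) (.n 2 (.l 0) (.l 0))) (.n 2 (.n 2 (.l 0) (.l 0)) (.n 2 (.l 0) (.l 0)))))
    [(6806306816, 524288000), (137438953472, 137438953472), (647707754496, 215902584832)] rfl (by decide +kernel)
theorem E11_c0_t5 : CovD 1 gE11 [(6806306816, 524288000), (137438953472, 137438953472), (1079512924160, 215902584832)] :=
  covD_E kE11_eq (.n 2 (.n 2 (.n 2 (.n 2 (.l 0) (.l 0)) (.n 2 (.l 0) (.l 0))) (.n 2 (.n 0 (.l 0) (.l 0)) (.l 0))) (.n 2 (.n 2 (.l 0) (.l 0)) (.n 2 (.l 0) (.l 0))))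
    [(6806306816, 524288000), (137438953472, 137438953472), (1079512924160, 215902584832)] rfl (by decide +kernel)
end

theorem E11_c0_t6 : CovD 1 gE11 [(6806306816, 524288000), (137438953472, 137438953472), (1511318093824, 215902584832)] :=
  covD_E kE11_eq (.n 2 (.n 2 (.n 2 (.l 0) (.l 0)) (.n 2 (.l 0) (.l 0))) (.n 2 (.n 2 (.l 0) (.l 0)) (.n 2 (.l 0) (.l 0))))
    [(6806306816, 524288000), (137438953472, 137438953472), (1511318093824, 215902584832)] rfl (by decide +kernel)

theorem A11_c0_t7 : CovD 1 gA11 [(6806306816, 524288000), (137438953472, 137438953472), (206158430208, 68719476736)] :=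
  covD_split 1 (by decide +kernel) A11_c0_t8 A11_c0_t9

theorem A11_c0_t5 : CovD 1 gA11 [(6806306816, 524288000), (137438953472, 137438953472), (137438953472, 137438953472)] :=
  covD_split 2 (by decide +kernel) A11_c0_t6 A11_c0_t7

theorem A11_c0_t10 : CovD 1 gA11 [(6806306816, 524288000), (137438953472, 137438953472), (412316860416, 137438953472)] :=
  covD_split 1 (by decide +kernel) A11_c0_t11 A11_c0_t12

theorem A11_c0_t4 : CovD 1 gA11 [(6806306816, 524288000), (137438953472, 137438953472), (274877906944, 274877906944)] :=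
  covD_split 2 (by decide +kernel) A11_c0_t5 A11_c0_t10

theorem A11_c0_t13 : CovD 1 gA11 [(6806306816, 524288000), (137438953472, 137438953472), (824633720832, 274877906944)] :=
  covD_split 2 (by decide +kernel) A11_c0_t14 A11_c0_t15

theorem A11_c0_t3 : CovD 1 gA11 [(6806306816, 524288000), (137438953472, 137438953472), (549755813888, 549755813888)] :=
  covD_split 2 (by decide +kernel) A11_c0_t4 A11_c0_t13

theorem A11_c0_t16 : CovD 1 gA11 [(6806306816, 524288000), (137438953472, 137438953472), (1649267441664, 549755813888)] :=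
  covD_split 2 (by decide +kernel) A11_c0_t17 A11_c0_t18

theorem A11_c0_t2 : CovD 1 gA11 [(6806306816, 524288000), (137438953472, 137438953472), (1099511627776, 1099511627776)] :=
  covD_split 2 (by decide +kernel) A11_c0_t3 A11_c0_t16

theorem A11_c0_t30 : CovD 1 gA11 [(6413090816, 131072000), (68719476736, 68719476736), (3350074490880, 17179869184)] :=
  covD_split 1 (by decide +kernel) A11_c0_t31 A11_c0_t32

theorem A11_c0_t28 : CovD 1 gA11 [(6413090816, 131072000), (68719476736, 68719476736), (3332894621696, 34359738368)] :=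
  covD_split 2 (by decide +kernel) A11_c0_t29 A11_c0_t30

theorem A11_c0_t27 : CovD 1 gA11 [(6544162816, 262144000), (68719476736, 68719476736), (3332894621696, 34359738368)] :=
  covD_split 0 (by decide +kernel) A11_c0_t28 A11_c0_t33

theorem A11_c0_t34 : CovD 1 gA11 [(7068450816, 262144000), (68719476736, 68719476736), (3332894621696, 34359738368)] :=
  covD_split 0 (by decide +kernel) A11_c0_t35 A11_c0_t36

theorem A11_c0_t26 : CovD 1 gA11 [(6806306816, 524288000), (68719476736, 68719476736), (3332894621696, 34359738368)] :=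
  covD_split 0 (by decide +kernel) A11_c0_t27 A11_c0_t34

theorem A11_c0_t39 : CovD 1 gA11 [(7068450816, 262144000), (68719476736, 68719476736), (3401614098432, 34359738368)] :=
  covD_split 0 (by decide +kernel) A11_c0_t40 A11_c0_t41

theorem A11_c0_t37 : CovD 1 gA11 [(6806306816, 524288000), (68719476736, 68719476736), (3401614098432, 34359738368)] :=
  covD_split 0 (by decide +kernel) A11_c0_t38 A11_c0_t39

theorem A11_c0_t25 : CovD 1 gA11 [(6806306816, 524288000), (68719476736, 68719476736), (3367254360064, 68719476736)] :=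
  covD_split 2 (by decide +kernel) A11_c0_t26 A11_c0_t37

theorem A11_c0_t24 : CovD 1 gA11 [(6806306816, 524288000), (68719476736, 68719476736), (3435973836800, 137438953472)] :=
  covD_split 2 (by decide +kernel) A11_c0_t25 A11_c0_t42

theorem A11_c0_t46 : CovD 1 gA11 [(6544162816, 262144000), (171798691840, 34359738368), (3367254360064, 68719476736)] :=
  covD_split 2 (by decide +kernel) A11_c0_t47 A11_c0_t48

theorem A11_c0_t45 : CovD 1 gA11 [(6544162816, 262144000), (206158430208, 68719476736), (3367254360064, 68719476736)] :=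
  covD_split 1 (by decide +kernel) A11_c0_t46 A11_c0_t49

theorem A11_c0_t51 : CovD 1 gA11 [(6937378816, 131072000), (206158430208, 68719476736), (3367254360064, 68719476736)] :=
  covD_split 2 (by decide +kernel) A11_c0_t52 A11_c0_t53

theorem A11_c0_t50 : CovD 1 gA11 [(7068450816, 262144000), (206158430208, 68719476736), (3367254360064, 68719476736)] :=
  covD_split 0 (by decide +kernel) A11_c0_t51 A11_c0_t54

theorem A11_c0_t44 : CovD 1 gA11 [(6806306816, 524288000), (206158430208, 68719476736), (3367254360064, 68719476736)] :=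
  covD_split 0 (by decide +kernel) A11_c0_t45 A11_c0_t50

theorem A11_c0_t43 : CovD 1 gA11 [(6806306816, 524288000), (206158430208, 68719476736), (3435973836800, 137438953472)] :=
  covD_split 2 (by decide +kernel) A11_c0_t44 A11_c0_t55

theorem A11_c0_t23 : CovD 1 gA11 [(6806306816, 524288000), (137438953472, 137438953472), (3435973836800, 137438953472)] :=
  covD_split 1 (by decide +kernel) A11_c0_t24 A11_c0_t43

theorem A11_c0_t22 : CovD 1 gA11 [(6806306816, 524288000), (137438953472, 137438953472), (3573412790272, 274877906944)] :=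
  covD_split 2 (by decide +kernel) A11_c0_t23 A11_c0_t56

theorem A11_c0_t21 : CovD 1 gA11 [(6806306816, 524288000), (137438953472, 137438953472), (3848290697216, 549755813888)] :=
  covD_split 2 (by decide +kernel) A11_c0_t22 A11_c0_t57

theorem A11_c0_t19 : CovD 1 gA11 [(6806306816, 524288000), (137438953472, 137438953472), (3298534883328, 1099511627776)] :=
  covD_split 2 (by decide +kernel) A11_c0_t20 A11_c0_t21

theorem A11_c0_t1 : CovD 1 gA11 [(6806306816, 524288000), (137438953472, 137438953472), (2199023255552, 2199023255552)] :=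
  covD_split 2 (by decide +kernel) A11_c0_t2 A11_c0_t19

theorem A11_c0 : CovD 1 gA11 [(6806306816, 524288000), (137438953472, 137438953472), (4398046511104, 4398046511104)] :=
  covD_split 2 (by decide +kernel) A11_c0_t1 A11_c0_t58

theorem B11_c0_t1 : CovD 1 gB11 [(6806306816, 524288000), (137438953472, 137438953472), (34359738368, 34359738368)] :=
  covD_split 1 (by decide +kernel) B11_c0_t2 B11_c0_t3

theorem B11_c0 : CovD 1 gB11 [(6806306816, 524288000), (137438953472, 137438953472), (68719476736, 68719476736)] :=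
  covD_split 2 (by decide +kernel) B11_c0_t1 B11_c0_t4

theorem C11_c0_t2 : CovD 1 gC11 [(6806306816, 524288000), (34359738368, 34359738368), (549755813888, 549755813888)] :=
  covD_split 1 (by decide +kernel) C11_c0_t3 C11_c0_t4

theorem C11_c0_t1 : CovD 1 gC11 [(6806306816, 524288000), (68719476736, 68719476736), (549755813888, 549755813888)] :=
  covD_split 1 (by decide +kernel) C11_c0_t2 C11_c0_t5

theorem C11_c0 : CovD 1 gC11 [(6806306816, 524288000), (137438953472, 137438953472), (549755813888, 549755813888)] :=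
  covD_split 1 (by decide +kernel) C11_c0_t1 C11_c0_t6

theorem D11_c0 : CovD 1 gD11 [(6806306816, 524288000), (137438953472, 137438953472), (863610339328, 863610339328)] :=
  covD_split 2 (by decide +kernel) D11_c0_t1 D11_c0_t2

theorem E11_c0_t1 : CovD 1 gE11 [(6806306816, 524288000), (137438953472, 137438953472), (431805169664, 431805169664)] :=
  covD_split 2 (by decide +kernel) E11_c0_t2 E11_c0_t3

theorem E11_c0_t4 : CovD 1 gE11 [(6806306816, 524288000), (137438953472, 137438953472), (1295415508992, 431805169664)] :=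
  covD_split 2 (by decide +kernel) E11_c0_t5 E11_c0_t6

theorem E11_c0 : CovD 1 gE11 [(6806306816, 524288000), (137438953472, 137438953472), (863610339328, 863610339328)] :=
  covD_split 2 (by decide +kernel) E11_c0_t1 E11_c0_t4

end Pool.Agent.helper14.NS.Q150a
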