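import Pool.Agent.helper14.NS.Q150a.PN14

/-!
Generated: certificates.
-/

namespace Pool.Agent.helper14.NS.Q150a

open Pool.Agent.helper31.IA (Z)
open Pool.Agent.helper31.IX (Op XOps runX Cov CovD cov_split covD_split)
open Pool.Agent.helper31.IC (TD)
open Pool.Agent.helper63.RG (reloc)
open Pool.Agent.helper63.NF hiding TD
open Pool.Agent.helper4.NS
open Pool.Agent.helper14.CF (xE covD_E)
open Pool.Agent.helper14.NR (share)

mutual
theorem A14_c0_t6 : CovD 1 gA14 [(6806306816, 524288000), (137438953472, 137438953472), (68719476736, 68719476736)] :=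
  covD_E kA14_eq (.n 2 (.l 2) (.n 2 (.l 2) (.n 1 (.n 1 (.n 2 (.l 2) (.n 1 (.n 1 (.l 0) (.l 0)) (.l 0))) (.l 0)) (.l 0))))
    [(6806306816, 524288000), (137438953472, 137438953472), (68719476736, 68719476736)] rfl (by decide +kernel)
theorem A14_c0_t8 : CovD 1 gA14 [(6806306816, 524288000), (68719476736, 68719476736), (206158430208, 68719476736)] :=
  covD_E kA14_eq (.n 1 (.n 1 (.n 1 (.n 2 (.n 1 (.l 0) (.l 0)) (.l 0)) (.n 2 (.n 2 (.l 0) (.l 0)) (.l 0))) (.n 1 (.n 2 (.n 1 (.l 0) (.l 0)) (.l 0)) (.n 2 (.l 0) (.l 0)))) (.n 1 (.n 2 (.l 0) (.l 0)) (.n 1 (.l 0) (.l 0))))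
    [(6806306816, 524288000), (68719476736, 68719476736), (206158430208, 68719476736)] rfl (by decide +kernel)
end

mutual
theorem A14_c0_t9 : CovD 1 gA14 [(6806306816, 524288000), (206158430208, 68719476736), (206158430208, 68719476736)] :=
  covD_E kA14_eq (.n 0 (.n 1 (.l 0) (.l 0)) (.n 1 (.l 0) (.l 0)))
    [(6806306816, 524288000), (206158430208, 68719476736), (206158430208, 68719476736)] rfl (by decide +kernel)
theorem A14_c0_t11 : CovD 1 gA14 [(6806306816, 524288000), (68719476736, 68719476736), (412316860416, 137438953472)] :=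
  covD_E kA14_eq (.n 1 (.n 1 (.n 2 (.n 2 (.l 0) (.l 0)) (.l 0)) (.n 2 (.n 2 (.l 0) (.l 0)) (.l 0))) (.n 1 (.n 2 (.n 2 (.l 0) (.l 0)) (.l 0)) (.n 2 (.n 0 (.l 0) (.l 0)) (.l 0))))
    [(6806306816, 524288000), (68719476736, 68719476736), (412316860416, 137438953472)] rfl (by decide +kernel)
end

mutual
theorem A14_c0_t12 : CovD 1 gA14 [(6806306816, 524288000), (206158430208, 68719476736), (412316860416, 137438953472)] :=
  covD_E kA14_eq (.n 1 (.n 0 (.n 2 (.l 0) (.l 0)) (.n 2 (.l 0) (.l 0))) (.n 2 (.l 0) (.l 0)))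
    [(6806306816, 524288000), (206158430208, 68719476736), (412316860416, 137438953472)] rfl (by decide +kernel)
theorem A14_c0_t14 : CovD 1 gA14 [(6806306816, 524288000), (137438953472, 137438953472), (687194767360, 137438953472)] :=
  covD_E kA14_eq (.n 1 (.n 1 (.n 2 (.n 0 (.l 0) (.l 0)) (.l 0)) (.n 2 (.l 0) (.l 0))) (.n 1 (.n 2 (.l 0) (.l 0)) (.n 2 (.l 0) (.l 0))))
    [(6806306816, 524288000), (137438953472, 137438953472), (687194767360, 137438953472)] rfl (by decide +kernel)
end

mutual
theorem A14_c0_t15 : CovD 1 gA14 [(6806306816, 524288000), (137438953472, 137438953472), (962072674304, 137438953472)] :=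
  covD_E kA14_eq (.n 1 (.n 1 (.n 2 (.l 0) (.l 0)) (.n 2 (.l 0) (.l 0))) (.n 1 (.n 2 (.l 0) (.l 0)) (.n 2 (.l 0) (.l 0))))
    [(6806306816, 524288000), (137438953472, 137438953472), (962072674304, 137438953472)] rfl (by decide +kernel)
theorem A14_c0_t17 : CovD 1 gA14 [(6806306816, 524288000), (137438953472, 137438953472), (1374389534720, 274877906944)] :=
  covD_E kA14_eq (.n 2 (.n 1 (.n 2 (.l 0) (.l 0)) (.n 0 (.n 1 (.l 0) (.l 0)) (.n 1 (.l 0) (.l 0)))) (.n 1 (.n 0 (.l 0) (.l 0)) (.n 1 (.l 0) (.l 0))))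
    [(6806306816, 524288000), (137438953472, 137438953472), (1374389534720, 274877906944)] rfl (by decide +kernel)
end

mutual
theorem A14_c0_t18 : CovD 1 gA14 [(6806306816, 524288000), (137438953472, 137438953472), (1924145348608, 274877906944)] :=
  covD_E kA14_eq (.n 2 (.n 0 (.n 1 (.l 0) (.l 0)) (.n 1 (.l 0) (.l 0))) (.n 0 (.n 1 (.l 0) (.l 0)) (.n 1 (.l 0) (.l 0))))
    [(6806306816, 524288000), (137438953472, 137438953472), (1924145348608, 274877906944)] rfl (by decide +kernel)
theorem A14_c0_t20 : CovD 1 gA14 [(6806306816, 524288000), (137438953472, 137438953472), (2748779069440, 549755813888)] :=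
  covD_E kA14_eq (.n 2 (.n 2 (.n 0 (.n 1 (.l 0) (.l 0)) (.n 1 (.l 0) (.l 0))) (.n 0 (.n 1 (.l 0) (.l 0)) (.n 1 (.l 0) (.l 0)))) (.n 2 (.n 0 (.n 1 (.l 0) (.l 0)) (.n 1 (.l 0) (.l 0))) (.n 0 (.n 1 (.l 0) (.l 0)) (.n 1 (.l 0) (.l 0)))))
    [(6806306816, 524288000), (137438953472, 137438953472), (2748779069440, 549755813888)] rfl (by decide +kernel)
end

mutual
theorem A14_c0_t27 : CovD 1 gA14 [(6544162816, 262144000), (34359738368, 34359738368), (3367254360064, 68719476736)] :=
  covD_E kA14_eq (.n 0 (.n 1 (.l 0) (.l 0)) (.n 0 (.l 0) (.l 0)))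
    [(6544162816, 262144000), (34359738368, 34359738368), (3367254360064, 68719476736)] rfl (by decide +kernel)
theorem A14_c0_t30 : CovD 1 gA14 [(6413090816, 131072000), (34359738368, 34359738368), (3470333575168, 34359738368)] :=
  covD_E kA14_eq (.n 2 (.n 0 (.n 1 (.n 2 (.n 0 (.n 0 (.l 0) (.l 0)) (.l 0)) (.l 1)) (.n 0 (.n 2 (.l 0) (.l 1)) (.n 2 (.l 0) (.l 1)))) (.n 1 (.n 2 (.n 0 (.l 0) (.l 0)) (.l 1)) (.n 2 (.l 0) (.n 1 (.l 1) (.l 1))))) (.l 1))
    [(6413090816, 131072000), (34359738368, 34359738368), (3470333575168, 34359738368)] rfl (by decide +kernel)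
end

mutual
theorem A14_c0_t32 : CovD 1 gA14 [(6609698816, 65536000), (34359738368, 34359738368), (3470333575168, 34359738368)] :=
  covD_E kA14_eq (.n 2 (.n 1 (.n 2 (.l 0) (.n 0 (.l 1) (.l 1))) (.n 2 (.l 0) (.n 1 (.l 1) (.n 0 (.l 1) (.l 1))))) (.l 1))
    [(6609698816, 65536000), (34359738368, 34359738368), (3470333575168, 34359738368)] rfl (by decide +kernel)
theorem A14_c0_t33 : CovD 1 gA14 [(6740770816, 65536000), (34359738368, 34359738368), (3470333575168, 34359738368)] :=
  covD_E kA14_eq (.n 2 (.n 1 (.n 2 (.l 0) (.n 0 (.l 1) (.n 0 (.l 1) (.l 1)))) (.n 2 (.l 0) (.n 2 (.n 1 (.l 0) (.l 0)) (.l 1)))) (.l 1))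
    [(6740770816, 65536000), (34359738368, 34359738368), (3470333575168, 34359738368)] rfl (by decide +kernel)
end

mutual
theorem A14_c0_t34 : CovD 1 gA14 [(6544162816, 262144000), (34359738368, 34359738368), (3539053051904, 34359738368)] :=
  covD_E kA14_eq (.l 1)
    [(6544162816, 262144000), (34359738368, 34359738368), (3539053051904, 34359738368)] rfl (by decide +kernel)
theorem A14_c0_t36 : CovD 1 gA14 [(7068450816, 262144000), (34359738368, 34359738368), (3367254360064, 68719476736)] :=
  covD_E kA14_eq (.n 0 (.l 0) (.l 0))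
    [(7068450816, 262144000), (34359738368, 34359738368), (3367254360064, 68719476736)] rfl (by decide +kernel)
end

mutual
theorem A14_c0_t39 : CovD 1 gA14 [(7068450816, 262144000), (17179869184, 17179869184), (3470333575168, 34359738368)] :=
  covD_E kA14_eq (.n 0 (.n 2 (.n 0 (.n 2 (.l 0) (.n 2 (.n 0 (.l 0) (.l 0)) (.l 1))) (.n 2 (.l 0) (.n 2 (.l 0) (.l 1)))) (.l 1)) (.n 2 (.n 2 (.l 0) (.n 0 (.n 2 (.l 0) (.n 0 (.l 1) (.l 1))) (.n 1 (.l 0) (.l 0)))) (.n 0 (.l 1) (.l 1))))
    [(7068450816, 262144000), (17179869184, 17179869184), (3470333575168, 34359738368)] rfl (by decide +kernel)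
theorem A14_c0_t40 : CovD 1 gA14 [(7068450816, 262144000), (17179869184, 17179869184), (3539053051904, 34359738368)] :=
  covD_E kA14_eq (.l 1)
    [(7068450816, 262144000), (17179869184, 17179869184), (3539053051904, 34359738368)] rfl (by decide +kernel)
end

mutual
theorem A14_c0_t43 : CovD 1 gA14 [(6937378816, 131072000), (51539607552, 17179869184), (3470333575168, 34359738368)] :=
  covD_E kA14_eq (.n 2 (.n 2 (.l 0) (.n 0 (.n 0 (.n 2 (.l 0) (.l 1)) (.n 2 (.l 0) (.l 1))) (.n 2 (.l 0) (.n 0 (.l 1) (.l 1))))) (.n 0 (.l 1) (.l 1)))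
    [(6937378816, 131072000), (51539607552, 17179869184), (3470333575168, 34359738368)] rfl (by decide +kernel)
theorem A14_c0_t44 : CovD 1 gA14 [(7199522816, 131072000), (51539607552, 17179869184), (3470333575168, 34359738368)] :=
  covD_E kA14_eq (.n 0 (.n 1 (.n 2 (.n 0 (.l 0) (.l 0)) (.l 1)) (.n 2 (.l 0) (.l 1))) (.n 2 (.n 0 (.l 0) (.l 0)) (.l 1)))
    [(7199522816, 131072000), (51539607552, 17179869184), (3470333575168, 34359738368)] rfl (by decide +kernel)
end

mutual
theorem A14_c0_t45 : CovD 1 gA14 [(7068450816, 262144000), (51539607552, 17179869184), (3539053051904, 34359738368)] :=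
  covD_E kA14_eq (.l 1)
    [(7068450816, 262144000), (51539607552, 17179869184), (3539053051904, 34359738368)] rfl (by decide +kernel)
theorem A14_c0_t47 : CovD 1 gA14 [(6806306816, 524288000), (103079215104, 34359738368), (3367254360064, 68719476736)] :=
  covD_E kA14_eq (.n 2 (.l 0) (.n 0 (.n 0 (.l 0) (.l 0)) (.l 0)))
    [(6806306816, 524288000), (103079215104, 34359738368), (3367254360064, 68719476736)] rfl (by decide +kernel)
end

mutual
theorem A14_c0_t52 : CovD 1 gA14 [(6413090816, 131072000), (85899345920, 17179869184), (3470333575168, 34359738368)] :=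
  covD_E kA14_eq (.n 2 (.n 0 (.n 2 (.l 0) (.n 1 (.l 1) (.n 0 (.l 1) (.l 1)))) (.n 2 (.l 0) (.n 0 (.n 1 (.l 1) (.l 1)) (.n 1 (.l 1) (.l 1))))) (.l 1))
    [(6413090816, 131072000), (85899345920, 17179869184), (3470333575168, 34359738368)] rfl (by decide +kernel)
theorem A14_c0_t53 : CovD 1 gA14 [(6413090816, 131072000), (120259084288, 17179869184), (3470333575168, 34359738368)] :=
  covD_E kA14_eq (.n 2 (.n 0 (.n 2 (.l 0) (.n 0 (.n 1 (.l 1) (.l 1)) (.n 2 (.l 0) (.l 1)))) (.n 2 (.l 0) (.n 0 (.n 2 (.l 0) (.l 1)) (.n 2 (.l 0) (.l 1))))) (.l 1))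
    [(6413090816, 131072000), (120259084288, 17179869184), (3470333575168, 34359738368)] rfl (by decide +kernel)
end

mutual
theorem A14_c0_t55 : CovD 1 gA14 [(6675234816, 131072000), (85899345920, 17179869184), (3470333575168, 34359738368)] :=
  covD_E kA14_eq (.n 2 (.n 0 (.n 2 (.l 0) (.n 2 (.n 0 (.l 0) (.l 0)) (.l 1))) (.n 2 (.l 0) (.n 2 (.l 0) (.n 0 (.l 1) (.l 1))))) (.l 1))
    [(6675234816, 131072000), (85899345920, 17179869184), (3470333575168, 34359738368)] rfl (by decide +kernel)
theorem A14_c0_t56 : CovD 1 gA14 [(6675234816, 131072000), (120259084288, 17179869184), (3470333575168, 34359738368)] :=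
  covD_E kA14_eq (.n 2 (.n 2 (.l 0) (.n 0 (.n 2 (.l 0) (.n 0 (.l 1) (.l 1))) (.n 1 (.n 0 (.l 0) (.l 0)) (.l 0)))) (.n 0 (.l 1) (.l 1)))
    [(6675234816, 131072000), (120259084288, 17179869184), (3470333575168, 34359738368)] rfl (by decide +kernel)
end

mutual
theorem A14_c0_t57 : CovD 1 gA14 [(6544162816, 262144000), (103079215104, 34359738368), (3539053051904, 34359738368)] :=
  covD_E kA14_eq (.l 1)
    [(6544162816, 262144000), (103079215104, 34359738368), (3539053051904, 34359738368)] rfl (by decide +kernel)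
theorem A14_c0_t60 : CovD 1 gA14 [(7068450816, 262144000), (85899345920, 17179869184), (3470333575168, 34359738368)] :=
  covD_E kA14_eq (.n 0 (.n 2 (.n 1 (.n 2 (.l 0) (.n 0 (.n 0 (.l 0) (.l 0)) (.l 0))) (.n 0 (.n 0 (.l 0) (.l 0)) (.l 0))) (.n 0 (.l 1) (.l 1))) (.n 0 (.n 0 (.n 2 (.l 0) (.l 1)) (.n 2 (.l 0) (.l 1))) (.n 2 (.l 0) (.n 1 (.l 1) (.l 1)))))
    [(7068450816, 262144000), (85899345920, 17179869184), (3470333575168, 34359738368)] rfl (by decide +kernel)
end

mutual
theorem A14_c0_t61 : CovD 1 gA14 [(7068450816, 262144000), (85899345920, 17179869184), (3539053051904, 34359738368)] :=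
  covD_E kA14_eq (.l 1)
    [(7068450816, 262144000), (85899345920, 17179869184), (3539053051904, 34359738368)] rfl (by decide +kernel)
theorem A14_c0_t62 : CovD 1 gA14 [(7068450816, 262144000), (120259084288, 17179869184), (3504693313536, 68719476736)] :=
  covD_E kA14_eq (.n 2 (.n 0 (.n 0 (.n 2 (.n 1 (.l 0) (.l 0)) (.l 1)) (.n 0 (.n 2 (.l 0) (.l 1)) (.n 2 (.l 0) (.l 1)))) (.n 2 (.n 0 (.l 0) (.l 0)) (.n 2 (.n 0 (.n 1 (.l 1) (.l 1)) (.n 2 (.n 0 (.l 0) (.l 0)) (.l 1))) (.l 1)))) (.l 1))
    [(7068450816, 262144000), (120259084288, 17179869184), (3504693313536, 68719476736)] rfl (by decide +kernel)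
end

mutual
theorem A14_c0_t66 : CovD 1 gA14 [(6544162816, 262144000), (171798691840, 34359738368), (3367254360064, 68719476736)] :=
  covD_E kA14_eq (.n 0 (.l 0) (.l 0))
    [(6544162816, 262144000), (171798691840, 34359738368), (3367254360064, 68719476736)] rfl (by decide +kernel)
theorem A14_c0_t70 : CovD 1 gA14 [(6413090816, 131072000), (154618822656, 17179869184), (3470333575168, 34359738368)] :=
  covD_E kA14_eq (.n 2 (.n 2 (.l 0) (.n 0 (.n 2 (.l 0) (.n 0 (.l 1) (.l 1))) (.n 2 (.l 0) (.n 1 (.l 1) (.l 1))))) (.n 0 (.l 1) (.l 1)))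
    [(6413090816, 131072000), (154618822656, 17179869184), (3470333575168, 34359738368)] rfl (by decide +kernel)
end

mutual
theorem A14_c0_t71 : CovD 1 gA14 [(6413090816, 131072000), (188978561024, 17179869184), (3470333575168, 34359738368)] :=
  covD_E kA14_eq (.n 0 (.n 2 (.n 0 (.n 1 (.l 0) (.l 0)) (.n 0 (.l 0) (.l 0))) (.l 1)) (.n 2 (.n 0 (.l 0) (.l 0)) (.l 1)))
    [(6413090816, 131072000), (188978561024, 17179869184), (3470333575168, 34359738368)] rfl (by decide +kernel)
theorem A14_c0_t72 : CovD 1 gA14 [(6675234816, 131072000), (171798691840, 34359738368), (3470333575168, 34359738368)] :=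
  covD_E kA14_eq (.n 0 (.n 1 (.n 0 (.n 2 (.n 0 (.l 0) (.l 0)) (.l 1)) (.n 2 (.l 0) (.l 1))) (.n 2 (.l 0) (.l 1))) (.n 1 (.n 0 (.n 2 (.l 0) (.l 1)) (.n 2 (.l 0) (.l 1))) (.n 2 (.l 0) (.n 0 (.l 1) (.l 1)))))
    [(6675234816, 131072000), (171798691840, 34359738368), (3470333575168, 34359738368)] rfl (by decide +kernel)
end

mutual
theorem A14_c0_t73 : CovD 1 gA14 [(6544162816, 262144000), (171798691840, 34359738368), (3539053051904, 34359738368)] :=
  covD_E kA14_eq (.l 1)
    [(6544162816, 262144000), (171798691840, 34359738368), (3539053051904, 34359738368)] rfl (by decide +kernel)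
theorem A14_c0_t75 : CovD 1 gA14 [(7068450816, 262144000), (171798691840, 34359738368), (3367254360064, 68719476736)] :=
  covD_E kA14_eq (.l 0)
    [(7068450816, 262144000), (171798691840, 34359738368), (3367254360064, 68719476736)] rfl (by decide +kernel)
end

mutual
theorem A14_c0_t77 : CovD 1 gA14 [(6937378816, 131072000), (171798691840, 34359738368), (3504693313536, 68719476736)] :=
  covD_E kA14_eq (.n 2 (.n 1 (.n 0 (.n 2 (.l 0) (.n 0 (.l 1) (.l 1))) (.n 2 (.l 0) (.n 1 (.l 1) (.n 0 (.l 1) (.l 1))))) (.n 2 (.l 0) (.n 2 (.n 0 (.n 0 (.l 1) (.n 0 (.l 1) (.l 1))) (.n 2 (.l 0) (.l 1))) (.l 1)))) (.l 1))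
    [(6937378816, 131072000), (171798691840, 34359738368), (3504693313536, 68719476736)] rfl (by decide +kernel)
theorem A14_c0_t78 : CovD 1 gA14 [(7199522816, 131072000), (171798691840, 34359738368), (3504693313536, 68719476736)] :=
  covD_E kA14_eq (.n 2 (.n 1 (.n 2 (.l 0) (.n 2 (.n 0 (.n 2 (.l 0) (.l 1)) (.n 2 (.l 0) (.n 0 (.l 1) (.l 1)))) (.l 1))) (.n 2 (.l 0) (.n 2 (.n 0 (.n 2 (.l 0) (.l 1)) (.n 0 (.l 0) (.l 0))) (.l 1)))) (.l 1))
    [(7199522816, 131072000), (171798691840, 34359738368), (3504693313536, 68719476736)] rfl (by decide +kernel)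
end

mutual
theorem A14_c0_t81 : CovD 1 gA14 [(6544162816, 262144000), (240518168576, 34359738368), (3367254360064, 68719476736)] :=
  covD_E kA14_eq (.l 0)
    [(6544162816, 262144000), (240518168576, 34359738368), (3367254360064, 68719476736)] rfl (by decide +kernel)
theorem A14_c0_t84 : CovD 1 gA14 [(6413090816, 131072000), (240518168576, 34359738368), (3470333575168, 34359738368)] :=
  covD_E kA14_eq (.n 0 (.n 0 (.n 2 (.n 0 (.l 0) (.l 0)) (.l 1)) (.n 2 (.l 0) (.l 1))) (.n 1 (.n 2 (.l 0) (.l 1)) (.n 2 (.l 0) (.l 1))))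
    [(6413090816, 131072000), (240518168576, 34359738368), (3470333575168, 34359738368)] rfl (by decide +kernel)
end

mutual
theorem A14_c0_t85 : CovD 1 gA14 [(6675234816, 131072000), (240518168576, 34359738368), (3470333575168, 34359738368)] :=
  covD_E kA14_eq (.n 2 (.n 0 (.l 0) (.l 0)) (.n 2 (.n 0 (.n 1 (.l 1) (.l 1)) (.n 2 (.n 0 (.l 0) (.l 0)) (.l 1))) (.l 1)))
    [(6675234816, 131072000), (240518168576, 34359738368), (3470333575168, 34359738368)] rfl (by decide +kernel)
theorem A14_c0_t86 : CovD 1 gA14 [(6544162816, 262144000), (240518168576, 34359738368), (3539053051904, 34359738368)] :=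
  covD_E kA14_eq (.l 1)
    [(6544162816, 262144000), (240518168576, 34359738368), (3539053051904, 34359738368)] rfl (by decide +kernel)
end

mutual
theorem A14_c0_t88 : CovD 1 gA14 [(7068450816, 262144000), (240518168576, 34359738368), (3367254360064, 68719476736)] :=
  covD_E kA14_eq (.l 0)
    [(7068450816, 262144000), (240518168576, 34359738368), (3367254360064, 68719476736)] rfl (by decide +kernel)
theorem A14_c0_t90 : CovD 1 gA14 [(6937378816, 131072000), (240518168576, 34359738368), (3504693313536, 68719476736)] :=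
  covD_E kA14_eq (.n 2 (.n 2 (.l 0) (.n 0 (.n 2 (.n 1 (.n 2 (.l 0) (.l 1)) (.l 0)) (.l 1)) (.n 2 (.n 1 (.n 0 (.l 0) (.l 0)) (.l 0)) (.l 1)))) (.l 1))
    [(6937378816, 131072000), (240518168576, 34359738368), (3504693313536, 68719476736)] rfl (by decide +kernel)
end

mutual
theorem A14_c0_t91 : CovD 1 gA14 [(7199522816, 131072000), (240518168576, 34359738368), (3504693313536, 68719476736)] :=
  covD_E kA14_eq (.n 2 (.n 2 (.l 0) (.n 0 (.n 2 (.n 0 (.l 0) (.l 0)) (.l 1)) (.n 2 (.l 0) (.n 0 (.l 1) (.l 1))))) (.l 1))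
    [(7199522816, 131072000), (240518168576, 34359738368), (3504693313536, 68719476736)] rfl (by decide +kernel)
theorem A14_c0_t92 : CovD 1 gA14 [(6806306816, 524288000), (137438953472, 137438953472), (3710851743744, 137438953472)] :=
  covD_E kA14_eq (.n 1 (.l 1) (.n 0 (.l 1) (.l 1)))
    [(6806306816, 524288000), (137438953472, 137438953472), (3710851743744, 137438953472)] rfl (by decide +kernel)
end

mutual
theorem A14_c0_t93 : CovD 1 gA14 [(6806306816, 524288000), (137438953472, 137438953472), (4123168604160, 274877906944)] :=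
  covD_E kA14_eq (.l 1)
    [(6806306816, 524288000), (137438953472, 137438953472), (4123168604160, 274877906944)] rfl (by decide +kernel)
theorem A14_c0_t94 : CovD 1 gA14 [(6806306816, 524288000), (137438953472, 137438953472), (6597069766656, 2199023255552)] :=
  covD_E kA14_eq (.n 2 (.n 2 (.l 1) (.l 1)) (.n 2 (.l 1) (.l 1)))
    [(6806306816, 524288000), (137438953472, 137438953472), (6597069766656, 2199023255552)] rfl (by decide +kernel)
end

mutual
theorem B14_c0_t2 : CovD 1 gB14 [(6806306816, 524288000), (68719476736, 68719476736), (34359738368, 34359738368)] :=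
  covD_E kB14_eq (.n 2 (.n 2 (.n 0 (.n 2 (.l 1) (.l 1)) (.n 2 (.l 1) (.l 1))) (.n 2 (.l 1) (.l 1))) (.n 2 (.n 2 (.l 1) (.l 1)) (.n 0 (.l 1) (.l 1))))
    [(6806306816, 524288000), (68719476736, 68719476736), (34359738368, 34359738368)] rfl (by decide +kernel)
theorem B14_c0_t3 : CovD 1 gB14 [(6806306816, 524288000), (206158430208, 68719476736), (34359738368, 34359738368)] :=
  covD_E kB14_eq (.n 2 (.n 2 (.n 2 (.l 1) (.l 1)) (.n 2 (.l 1) (.l 1))) (.n 2 (.n 2 (.l 1) (.l 1)) (.l 1)))
    [(6806306816, 524288000), (206158430208, 68719476736), (34359738368, 34359738368)] rfl (by decide +kernel)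
end

mutual
theorem B14_c0_t4 : CovD 1 gB14 [(6806306816, 524288000), (137438953472, 137438953472), (103079215104, 34359738368)] :=
  covD_E kB14_eq (.n 2 (.n 1 (.n 2 (.l 1) (.l 1)) (.n 2 (.l 1) (.l 1))) (.n 2 (.n 0 (.l 1) (.l 1)) (.l 1)))
    [(6806306816, 524288000), (137438953472, 137438953472), (103079215104, 34359738368)] rfl (by decide +kernel)
theorem C14_c0_t4 : CovD 1 gC14 [(6806306816, 524288000), (17179869184, 17179869184), (274877906944, 274877906944)] :=
  covD_E kC14_eq (.n 2 (.n 2 (.l 0) (.l 0)) (.n 2 (.l 0) (.l 0)))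
    [(6806306816, 524288000), (17179869184, 17179869184), (274877906944, 274877906944)] rfl (by decide +kernel)
end

mutual
theorem C14_c0_t5 : CovD 1 gC14 [(6806306816, 524288000), (17179869184, 17179869184), (824633720832, 274877906944)] :=
  covD_E kC14_eq (.n 1 (.n 1 (.n 2 (.l 0) (.n 2 (.l 0) (.n 2 (.l 0) (.n 2 (.l 0) (.n 2 (.l 0) (.n 2 (.l 0) (.n 2 (.l 0) (.l 1)))))))) (.n 2 (.l 0) (.l 0))) (.n 2 (.l 0) (.n 0 (.l 0) (.l 0))))
    [(6806306816, 524288000), (17179869184, 17179869184), (824633720832, 274877906944)] rfl (by decide +kernel)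
theorem C14_c0_t6 : CovD 1 gC14 [(6806306816, 524288000), (51539607552, 17179869184), (549755813888, 549755813888)] :=
  covD_E kC14_eq (.n 2 (.n 2 (.l 0) (.l 0)) (.n 2 (.l 0) (.n 0 (.l 0) (.l 0))))
    [(6806306816, 524288000), (51539607552, 17179869184), (549755813888, 549755813888)] rfl (by decide +kernel)
end

mutual
theorem C14_c0_t7 : CovD 1 gC14 [(6806306816, 524288000), (103079215104, 34359738368), (549755813888, 549755813888)] :=
  covD_E kC14_eq (.n 2 (.n 2 (.l 0) (.l 0)) (.n 2 (.l 0) (.l 0)))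
    [(6806306816, 524288000), (103079215104, 34359738368), (549755813888, 549755813888)] rfl (by decide +kernel)
theorem C14_c0_t8 : CovD 1 gC14 [(6806306816, 524288000), (206158430208, 68719476736), (549755813888, 549755813888)] :=
  covD_E kC14_eq (.n 2 (.n 2 (.l 0) (.l 0)) (.n 2 (.l 0) (.l 0)))
    [(6806306816, 524288000), (206158430208, 68719476736), (549755813888, 549755813888)] rfl (by decide +kernel)
end

mutual
theorem D14_c0_t1 : CovD 1 gD14 [(6806306816, 524288000), (137438953472, 137438953472), (431805169664, 431805169664)] :=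
  covD_E kD14_eq (.n 2 (.n 2 (.n 2 (.n 2 (.l 0) (.l 0)) (.n 2 (.l 0) (.l 0))) (.n 2 (.n 2 (.l 0) (.l 0)) (.n 2 (.l 0) (.l 0)))) (.n 2 (.n 2 (.n 2 (.l 0) (.l 0)) (.n 2 (.l 0) (.l 0))) (.n 2 (.n 2 (.l 0) (.l 0)) (.n 2 (.l 0) (.l 0)))))
    [(6806306816, 524288000), (137438953472, 137438953472), (431805169664, 431805169664)] rfl (by decide +kernel)
theorem D14_c0_t2 : CovD 1 gD14 [(6806306816, 524288000), (137438953472, 137438953472), (1295415508992, 431805169664)] :=
  covD_E kD14_eq (.n 2 (.n 2 (.n 2 (.n 2 (.l 0) (.l 0)) (.n 2 (.l 0) (.l 0))) (.n 2 (.n 2 (.l 0) (.l 0)) (.n 2 (.l 0) (.l 0)))) (.n 2 (.n 2 (.n 2 (.l 0) (.l 0)) (.n 2 (.l 0) (.l 0))) (.n 2 (.n 2 (.l 0) (.l 0)) (.n 2 (.l 0) (.l 0)))))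
    [(6806306816, 524288000), (137438953472, 137438953472), (1295415508992, 431805169664)] rfl (by decide +kernel)
end

mutual
theorem E14_c0_t2 : CovD 1 gE14 [(6806306816, 524288000), (137438953472, 137438953472), (215902584832, 215902584832)] :=
  covD_E kE14_eq (.n 2 (.l 1) (.n 2 (.n 1 (.l 1) (.l 1)) (.n 2 (.n 0 (.n 2 (.l 0) (.l 0)) (.n 2 (.l 0) (.l 0))) (.n 0 (.n 2 (.l 0) (.l 0)) (.n 2 (.l 0) (.l 0))))))
    [(6806306816, 524288000), (137438953472, 137438953472), (215902584832, 215902584832)] rfl (by decide +kernel)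
theorem E14_c0_t3 : CovD 1 gE14 [(6806306816, 524288000), (137438953472, 137438953472), (647707754496, 215902584832)] :=
  covD_E kE14_eq (.n 2 (.n 2 (.n 2 (.n 2 (.l 0) (.l 0)) (.n 2 (.l 0) (.l 0))) (.n 2 (.n 2 (.l 0) (.l 0)) (.n 2 (.l 0) (.l 0)))) (.n 2 (.n 2 (.n 2 (.l 0) (.l 0)) (.n 2 (.l 0) (.l 0))) (.n 2 (.n 2 (.l 0) (.l 0)) (.n 2 (.l 0) (.l 0)))))
    [(6806306816, 524288000), (137438953472, 137438953472), (647707754496, 215902584832)] rfl (by decide +kernel)
end

mutual
theorem E14_c0_t5 : CovD 1 gE14 [(6806306816, 524288000), (137438953472, 137438953472), (1079512924160, 215902584832)] :=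
  covD_E kE14_eq (.n 2 (.n 2 (.n 2 (.n 2 (.l 0) (.l 0)) (.n 2 (.l 0) (.l 0))) (.n 2 (.n 2 (.l 0) (.l 0)) (.n 2 (.l 0) (.l 0)))) (.n 2 (.n 2 (.n 2 (.l 0) (.l 0)) (.n 0 (.l 0) (.l 0))) (.n 2 (.l 0) (.l 0))))
    [(6806306816, 524288000), (137438953472, 137438953472), (1079512924160, 215902584832)] rfl (by decide +kernel)
theorem E14_c0_t6 : CovD 1 gE14 [(6806306816, 524288000), (137438953472, 137438953472), (1511318093824, 215902584832)] :=
  covD_E kE14_eq (.n 2 (.n 2 (.n 2 (.l 0) (.l 0)) (.n 2 (.l 0) (.l 0))) (.n 2 (.n 2 (.l 0) (.l 0)) (.n 2 (.l 0) (.l 0))))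
    [(6806306816, 524288000), (137438953472, 137438953472), (1511318093824, 215902584832)] rfl (by decide +kernel)
end

theorem A14_c0_t7 : CovD 1 gA14 [(6806306816, 524288000), (137438953472, 137438953472), (206158430208, 68719476736)] :=
  covD_split 1 (by decide +kernel) A14_c0_t8 A14_c0_t9

theorem A14_c0_t5 : CovD 1 gA14 [(6806306816, 524288000), (137438953472, 137438953472), (137438953472, 137438953472)] :=
  covD_split 2 (by decide +kernel) A14_c0_t6 A14_c0_t7

theorem A14_c0_t10 : CovD 1 gA14 [(6806306816, 524288000), (137438953472, 137438953472), (412316860416, 137438953472)] :=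
  covD_split 1 (by decide +kernel) A14_c0_t11 A14_c0_t12

theorem A14_c0_t4 : CovD 1 gA14 [(6806306816, 524288000), (137438953472, 137438953472), (274877906944, 274877906944)] :=
  covD_split 2 (by decide +kernel) A14_c0_t5 A14_c0_t10

theorem A14_c0_t13 : CovD 1 gA14 [(6806306816, 524288000), (137438953472, 137438953472), (824633720832, 274877906944)] :=
  covD_split 2 (by decide +kernel) A14_c0_t14 A14_c0_t15

theorem A14_c0_t3 : CovD 1 gA14 [(6806306816, 524288000), (137438953472, 137438953472), (549755813888, 549755813888)] :=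
  covD_split 2 (by decide +kernel) A14_c0_t4 A14_c0_t13

theorem A14_c0_t16 : CovD 1 gA14 [(6806306816, 524288000), (137438953472, 137438953472), (1649267441664, 549755813888)] :=
  covD_split 2 (by decide +kernel) A14_c0_t17 A14_c0_t18

theorem A14_c0_t2 : CovD 1 gA14 [(6806306816, 524288000), (137438953472, 137438953472), (1099511627776, 1099511627776)] :=
  covD_split 2 (by decide +kernel) A14_c0_t3 A14_c0_t16

theorem A14_c0_t31 : CovD 1 gA14 [(6675234816, 131072000), (34359738368, 34359738368), (3470333575168, 34359738368)] :=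
  covD_split 0 (by decide +kernel) A14_c0_t32 A14_c0_t33

theorem A14_c0_t29 : CovD 1 gA14 [(6544162816, 262144000), (34359738368, 34359738368), (3470333575168, 34359738368)] :=
  covD_split 0 (by decide +kernel) A14_c0_t30 A14_c0_t31

theorem A14_c0_t28 : CovD 1 gA14 [(6544162816, 262144000), (34359738368, 34359738368), (3504693313536, 68719476736)] :=
  covD_split 2 (by decide +kernel) A14_c0_t29 A14_c0_t34

theorem A14_c0_t26 : CovD 1 gA14 [(6544162816, 262144000), (34359738368, 34359738368), (3435973836800, 137438953472)] :=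
  covD_split 2 (by decide +kernel) A14_c0_t27 A14_c0_t28

theorem A14_c0_t38 : CovD 1 gA14 [(7068450816, 262144000), (17179869184, 17179869184), (3504693313536, 68719476736)] :=
  covD_split 2 (by decide +kernel) A14_c0_t39 A14_c0_t40

theorem A14_c0_t42 : CovD 1 gA14 [(7068450816, 262144000), (51539607552, 17179869184), (3470333575168, 34359738368)] :=
  covD_split 0 (by decide +kernel) A14_c0_t43 A14_c0_t44

theorem A14_c0_t41 : CovD 1 gA14 [(7068450816, 262144000), (51539607552, 17179869184), (3504693313536, 68719476736)] :=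
  covD_split 2 (by decide +kernel) A14_c0_t42 A14_c0_t45

theorem A14_c0_t37 : CovD 1 gA14 [(7068450816, 262144000), (34359738368, 34359738368), (3504693313536, 68719476736)] :=
  covD_split 1 (by decide +kernel) A14_c0_t38 A14_c0_t41

theorem A14_c0_t35 : CovD 1 gA14 [(7068450816, 262144000), (34359738368, 34359738368), (3435973836800, 137438953472)] :=
  covD_split 2 (by decide +kernel) A14_c0_t36 A14_c0_t37

theorem A14_c0_t25 : CovD 1 gA14 [(6806306816, 524288000), (34359738368, 34359738368), (3435973836800, 137438953472)] :=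
  covD_split 0 (by decide +kernel) A14_c0_t26 A14_c0_t35

theorem A14_c0_t51 : CovD 1 gA14 [(6413090816, 131072000), (103079215104, 34359738368), (3470333575168, 34359738368)] :=
  covD_split 1 (by decide +kernel) A14_c0_t52 A14_c0_t53

theorem A14_c0_t54 : CovD 1 gA14 [(6675234816, 131072000), (103079215104, 34359738368), (3470333575168, 34359738368)] :=
  covD_split 1 (by decide +kernel) A14_c0_t55 A14_c0_t56

theorem A14_c0_t50 : CovD 1 gA14 [(6544162816, 262144000), (103079215104, 34359738368), (3470333575168, 34359738368)] :=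
  covD_split 0 (by decide +kernel) A14_c0_t51 A14_c0_t54

theorem A14_c0_t49 : CovD 1 gA14 [(6544162816, 262144000), (103079215104, 34359738368), (3504693313536, 68719476736)] :=
  covD_split 2 (by decide +kernel) A14_c0_t50 A14_c0_t57

theorem A14_c0_t59 : CovD 1 gA14 [(7068450816, 262144000), (85899345920, 17179869184), (3504693313536, 68719476736)] :=
  covD_split 2 (by decide +kernel) A14_c0_t60 A14_c0_t61

theorem A14_c0_t58 : CovD 1 gA14 [(7068450816, 262144000), (103079215104, 34359738368), (3504693313536, 68719476736)] :=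
  covD_split 1 (by decide +kernel) A14_c0_t59 A14_c0_t62

theorem A14_c0_t48 : CovD 1 gA14 [(6806306816, 524288000), (103079215104, 34359738368), (3504693313536, 68719476736)] :=
  covD_split 0 (by decide +kernel) A14_c0_t49 A14_c0_t58

theorem A14_c0_t46 : CovD 1 gA14 [(6806306816, 524288000), (103079215104, 34359738368), (3435973836800, 137438953472)] :=
  covD_split 2 (by decide +kernel) A14_c0_t47 A14_c0_t48

theorem A14_c0_t24 : CovD 1 gA14 [(6806306816, 524288000), (68719476736, 68719476736), (3435973836800, 137438953472)] :=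
  covD_split 1 (by decide +kernel) A14_c0_t25 A14_c0_t46

theorem A14_c0_t69 : CovD 1 gA14 [(6413090816, 131072000), (171798691840, 34359738368), (3470333575168, 34359738368)] :=
  covD_split 1 (by decide +kernel) A14_c0_t70 A14_c0_t71

theorem A14_c0_t68 : CovD 1 gA14 [(6544162816, 262144000), (171798691840, 34359738368), (3470333575168, 34359738368)] :=
  covD_split 0 (by decide +kernel) A14_c0_t69 A14_c0_t72

theorem A14_c0_t67 : CovD 1 gA14 [(6544162816, 262144000), (171798691840, 34359738368), (3504693313536, 68719476736)] :=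
  covD_split 2 (by decide +kernel) A14_c0_t68 A14_c0_t73

theorem A14_c0_t65 : CovD 1 gA14 [(6544162816, 262144000), (171798691840, 34359738368), (3435973836800, 137438953472)] :=
  covD_split 2 (by decide +kernel) A14_c0_t66 A14_c0_t67

theorem A14_c0_t76 : CovD 1 gA14 [(7068450816, 262144000), (171798691840, 34359738368), (3504693313536, 68719476736)] :=
  covD_split 0 (by decide +kernel) A14_c0_t77 A14_c0_t78

theorem A14_c0_t74 : CovD 1 gA14 [(7068450816, 262144000), (171798691840, 34359738368), (3435973836800, 137438953472)] :=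
  covD_split 2 (by decide +kernel) A14_c0_t75 A14_c0_t76

theorem A14_c0_t64 : CovD 1 gA14 [(6806306816, 524288000), (171798691840, 34359738368), (3435973836800, 137438953472)] :=
  covD_split 0 (by decide +kernel) A14_c0_t65 A14_c0_t74

theorem A14_c0_t83 : CovD 1 gA14 [(6544162816, 262144000), (240518168576, 34359738368), (3470333575168, 34359738368)] :=
  covD_split 0 (by decide +kernel) A14_c0_t84 A14_c0_t85

theorem A14_c0_t82 : CovD 1 gA14 [(6544162816, 262144000), (240518168576, 34359738368), (3504693313536, 68719476736)] :=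
  covD_split 2 (by decide +kernel) A14_c0_t83 A14_c0_t86

theorem A14_c0_t80 : CovD 1 gA14 [(6544162816, 262144000), (240518168576, 34359738368), (3435973836800, 137438953472)] :=
  covD_split 2 (by decide +kernel) A14_c0_t81 A14_c0_t82

theorem A14_c0_t89 : CovD 1 gA14 [(7068450816, 262144000), (240518168576, 34359738368), (3504693313536, 68719476736)] :=
  covD_split 0 (by decide +kernel) A14_c0_t90 A14_c0_t91

theorem A14_c0_t87 : CovD 1 gA14 [(7068450816, 262144000), (240518168576, 34359738368), (3435973836800, 137438953472)] :=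
  covD_split 2 (by decide +kernel) A14_c0_t88 A14_c0_t89

theorem A14_c0_t79 : CovD 1 gA14 [(6806306816, 524288000), (240518168576, 34359738368), (3435973836800, 137438953472)] :=
  covD_split 0 (by decide +kernel) A14_c0_t80 A14_c0_t87

theorem A14_c0_t63 : CovD 1 gA14 [(6806306816, 524288000), (206158430208, 68719476736), (3435973836800, 137438953472)] :=
  covD_split 1 (by decide +kernel) A14_c0_t64 A14_c0_t79

theorem A14_c0_t23 : CovD 1 gA14 [(6806306816, 524288000), (137438953472, 137438953472), (3435973836800, 137438953472)] :=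
  covD_split 1 (by decide +kernel) A14_c0_t24 A14_c0_t63

theorem A14_c0_t22 : CovD 1 gA14 [(6806306816, 524288000), (137438953472, 137438953472), (3573412790272, 274877906944)] :=
  covD_split 2 (by decide +kernel) A14_c0_t23 A14_c0_t92

theorem A14_c0_t21 : CovD 1 gA14 [(6806306816, 524288000), (137438953472, 137438953472), (3848290697216, 549755813888)] :=
  covD_split 2 (by decide +kernel) A14_c0_t22 A14_c0_t93

theorem A14_c0_t19 : CovD 1 gA14 [(6806306816, 524288000), (137438953472, 137438953472), (3298534883328, 1099511627776)] :=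
  covD_split 2 (by decide +kernel) A14_c0_t20 A14_c0_t21

theorem A14_c0_t1 : CovD 1 gA14 [(6806306816, 524288000), (137438953472, 137438953472), (2199023255552, 2199023255552)] :=
  covD_split 2 (by decide +kernel) A14_c0_t2 A14_c0_t19

theorem A14_c0 : CovD 1 gA14 [(6806306816, 524288000), (137438953472, 137438953472), (4398046511104, 4398046511104)] :=
  covD_split 2 (by decide +kernel) A14_c0_t1 A14_c0_t94

theorem B14_c0_t1 : CovD 1 gB14 [(6806306816, 524288000), (137438953472, 137438953472), (34359738368, 34359738368)] :=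
  covD_split 1 (by decide +kernel) B14_c0_t2 B14_c0_t3

theorem B14_c0 : CovD 1 gB14 [(6806306816, 524288000), (137438953472, 137438953472), (68719476736, 68719476736)] :=
  covD_split 2 (by decide +kernel) B14_c0_t1 B14_c0_t4

theorem C14_c0_t3 : CovD 1 gC14 [(6806306816, 524288000), (17179869184, 17179869184), (549755813888, 549755813888)] :=
  covD_split 2 (by decide +kernel) C14_c0_t4 C14_c0_t5

theorem C14_c0_t2 : CovD 1 gC14 [(6806306816, 524288000), (34359738368, 34359738368), (549755813888, 549755813888)] :=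
  covD_split 1 (by decide +kernel) C14_c0_t3 C14_c0_t6

theorem C14_c0_t1 : CovD 1 gC14 [(6806306816, 524288000), (68719476736, 68719476736), (549755813888, 549755813888)] :=
  covD_split 1 (by decide +kernel) C14_c0_t2 C14_c0_t7

theorem C14_c0 : CovD 1 gC14 [(6806306816, 524288000), (137438953472, 137438953472), (549755813888, 549755813888)] :=
  covD_split 1 (by decide +kernel) C14_c0_t1 C14_c0_t8

theorem D14_c0 : CovD 1 gD14 [(6806306816, 524288000), (137438953472, 137438953472), (863610339328, 863610339328)] :=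
  covD_split 2 (by decide +kernel) D14_c0_t1 D14_c0_t2

theorem E14_c0_t1 : CovD 1 gE14 [(6806306816, 524288000), (137438953472, 137438953472), (431805169664, 431805169664)] :=
  covD_split 2 (by decide +kernel) E14_c0_t2 E14_c0_t3

theorem E14_c0_t4 : CovD 1 gE14 [(6806306816, 524288000), (137438953472, 137438953472), (1295415508992, 431805169664)] :=
  covD_split 2 (by decide +kernel) E14_c0_t5 E14_c0_t6

theorem E14_c0 : CovD 1 gE14 [(6806306816, 524288000), (137438953472, 137438953472), (863610339328, 863610339328)] :=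
  covD_split 2 (by decide +kernel) E14_c0_t1 E14_c0_t4

end Pool.Agent.helper14.NS.Q150a
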