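import Pool.Agent.helper14.NS.Q150a.PN15

/-!
Generated: certificates.
-/

namespace Pool.Agent.helper14.NS.Q150a

open Pool.Agent.helper31.IA (Z)
open Pool.Agent.helper31.IX (Op XOps runX Cov CovD cov_split covD_split)
open Pool.Agent.helper31.IC (TD)
open Pool.Agent.helper63.RG (reloc)
open Pool.Agent.helper63.NF hiding TD
open Pool.Agent.helper4.NS
open Pool.Agent.helper14.CF (xE covD_E)
open Pool.Agent.helper14.NR (share)

mutual
theorem A15_c0_t6 : CovD 1 gA15 [(6806306816, 524288000), (34359738368, 34359738368), (68719476736, 68719476736)] :=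
  covD_E kA15_eq (.n 2 (.l 2) (.n 2 (.l 2) (.n 2 (.l 2) (.n 1 (.n 1 (.l 0) (.l 0)) (.l 0)))))
    [(6806306816, 524288000), (34359738368, 34359738368), (68719476736, 68719476736)] rfl (by decide +kernel)
theorem A15_c0_t7 : CovD 1 gA15 [(6806306816, 524288000), (34359738368, 34359738368), (206158430208, 68719476736)] :=
  covD_E kA15_eq (.n 1 (.n 1 (.n 2 (.n 1 (.l 0) (.l 0)) (.l 0)) (.n 2 (.n 2 (.l 0) (.l 0)) (.l 0))) (.n 1 (.n 2 (.n 1 (.l 0) (.l 0)) (.l 0)) (.n 2 (.l 0) (.l 0))))
    [(6806306816, 524288000), (34359738368, 34359738368), (206158430208, 68719476736)] rfl (by decide +kernel)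
end

mutual
theorem A15_c0_t8 : CovD 1 gA15 [(6806306816, 524288000), (34359738368, 34359738368), (412316860416, 137438953472)] :=
  covD_E kA15_eq (.n 1 (.n 2 (.n 2 (.l 0) (.l 0)) (.l 0)) (.n 2 (.n 2 (.l 0) (.l 0)) (.l 0)))
    [(6806306816, 524288000), (34359738368, 34359738368), (412316860416, 137438953472)] rfl (by decide +kernel)
theorem A15_c0_t9 : CovD 1 gA15 [(6806306816, 524288000), (34359738368, 34359738368), (824633720832, 274877906944)] :=
  covD_E kA15_eq (.n 2 (.n 2 (.n 0 (.l 0) (.l 0)) (.l 0)) (.n 0 (.l 0) (.l 0)))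
    [(6806306816, 524288000), (34359738368, 34359738368), (824633720832, 274877906944)] rfl (by decide +kernel)
end

mutual
theorem A15_c0_t10 : CovD 1 gA15 [(6806306816, 524288000), (34359738368, 34359738368), (1649267441664, 549755813888)] :=
  covD_E kA15_eq (.n 2 (.n 2 (.l 0) (.l 0)) (.n 2 (.l 0) (.n 2 (.l 0) (.l 0))))
    [(6806306816, 524288000), (34359738368, 34359738368), (1649267441664, 549755813888)] rfl (by decide +kernel)
theorem A15_c0_t13 : CovD 1 gA15 [(6806306816, 524288000), (103079215104, 34359738368), (274877906944, 274877906944)] :=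
  covD_E kA15_eq (.n 2 (.n 2 (.n 2 (.l 2) (.n 1 (.l 0) (.l 0))) (.n 1 (.n 2 (.l 0) (.l 0)) (.n 1 (.l 0) (.l 0)))) (.n 1 (.n 2 (.n 2 (.l 0) (.l 0)) (.l 0)) (.n 2 (.n 0 (.l 0) (.l 0)) (.l 0))))
    [(6806306816, 524288000), (103079215104, 34359738368), (274877906944, 274877906944)] rfl (by decide +kernel)
end

mutual
theorem A15_c0_t14 : CovD 1 gA15 [(6806306816, 524288000), (103079215104, 34359738368), (824633720832, 274877906944)] :=
  covD_E kA15_eq (.n 2 (.n 2 (.l 0) (.l 0)) (.n 1 (.l 0) (.l 0)))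
    [(6806306816, 524288000), (103079215104, 34359738368), (824633720832, 274877906944)] rfl (by decide +kernel)
theorem A15_c0_t15 : CovD 1 gA15 [(6806306816, 524288000), (103079215104, 34359738368), (1649267441664, 549755813888)] :=
  covD_E kA15_eq (.n 2 (.n 2 (.l 0) (.l 0)) (.n 2 (.n 0 (.l 0) (.l 0)) (.n 2 (.l 0) (.l 0))))
    [(6806306816, 524288000), (103079215104, 34359738368), (1649267441664, 549755813888)] rfl (by decide +kernel)
end

mutual
theorem A15_c0_t19 : CovD 1 gA15 [(6806306816, 524288000), (34359738368, 34359738368), (2473901162496, 274877906944)] :=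
  covD_E kA15_eq (.n 2 (.n 2 (.l 0) (.n 0 (.l 0) (.l 0))) (.n 0 (.n 2 (.l 0) (.n 2 (.l 0) (.l 0))) (.n 2 (.n 2 (.l 0) (.l 0)) (.n 2 (.l 0) (.n 0 (.l 0) (.l 0))))))
    [(6806306816, 524288000), (34359738368, 34359738368), (2473901162496, 274877906944)] rfl (by decide +kernel)
theorem A15_c0_t22 : CovD 1 gA15 [(6544162816, 262144000), (34359738368, 34359738368), (2886218022912, 137438953472)] :=
  covD_E kA15_eq (.n 2 (.n 2 (.l 0) (.l 0)) (.n 2 (.n 0 (.l 0) (.l 0)) (.n 2 (.l 0) (.l 0))))
    [(6544162816, 262144000), (34359738368, 34359738368), (2886218022912, 137438953472)] rfl (by decide +kernel)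
end

mutual
theorem A15_c0_t23 : CovD 1 gA15 [(6544162816, 262144000), (34359738368, 34359738368), (3161095929856, 137438953472)] :=
  covD_E kA15_eq (.n 2 (.n 2 (.n 2 (.l 0) (.l 0)) (.n 2 (.l 0) (.l 0))) (.n 2 (.n 2 (.l 0) (.n 0 (.l 0) (.l 0))) (.n 0 (.n 2 (.l 0) (.l 0)) (.n 2 (.l 0) (.l 0)))))
    [(6544162816, 262144000), (34359738368, 34359738368), (3161095929856, 137438953472)] rfl (by decide +kernel)
theorem A15_c0_t25 : CovD 1 gA15 [(7068450816, 262144000), (34359738368, 34359738368), (2886218022912, 137438953472)] :=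
  covD_E kA15_eq (.n 2 (.n 2 (.n 2 (.l 0) (.l 0)) (.n 2 (.l 0) (.l 0))) (.n 2 (.n 2 (.l 0) (.l 0)) (.n 0 (.n 1 (.l 0) (.l 0)) (.n 2 (.l 0) (.l 0)))))
    [(7068450816, 262144000), (34359738368, 34359738368), (2886218022912, 137438953472)] rfl (by decide +kernel)
end

mutual
theorem A15_c0_t26 : CovD 1 gA15 [(7068450816, 262144000), (34359738368, 34359738368), (3161095929856, 137438953472)] :=
  covD_E kA15_eq (.n 2 (.n 2 (.n 2 (.l 0) (.l 0)) (.n 2 (.l 0) (.l 0))) (.n 0 (.n 2 (.l 0) (.l 0)) (.n 2 (.l 0) (.l 0))))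
    [(7068450816, 262144000), (34359738368, 34359738368), (3161095929856, 137438953472)] rfl (by decide +kernel)
theorem A15_c0_t28 : CovD 1 gA15 [(6806306816, 524288000), (103079215104, 34359738368), (2473901162496, 274877906944)] :=
  covD_E kA15_eq (.n 2 (.n 2 (.n 0 (.l 0) (.l 0)) (.n 2 (.l 0) (.l 0))) (.n 0 (.n 2 (.l 0) (.n 2 (.l 0) (.l 0))) (.n 2 (.n 2 (.l 0) (.l 0)) (.n 2 (.n 1 (.l 0) (.l 0)) (.n 2 (.l 0) (.l 0))))))
    [(6806306816, 524288000), (103079215104, 34359738368), (2473901162496, 274877906944)] rfl (by decide +kernel)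
end

mutual
theorem A15_c0_t30 : CovD 1 gA15 [(6544162816, 262144000), (103079215104, 34359738368), (3023656976384, 274877906944)] :=
  covD_E kA15_eq (.n 2 (.n 2 (.n 2 (.l 0) (.n 0 (.l 0) (.l 0))) (.n 2 (.n 2 (.l 0) (.l 0)) (.n 2 (.l 0) (.l 0)))) (.n 2 (.n 2 (.n 2 (.l 0) (.l 0)) (.n 2 (.l 0) (.l 0))) (.n 2 (.n 2 (.l 0) (.l 0)) (.n 2 (.l 0) (.l 0)))))
    [(6544162816, 262144000), (103079215104, 34359738368), (3023656976384, 274877906944)] rfl (by decide +kernel)
theorem A15_c0_t32 : CovD 1 gA15 [(7068450816, 262144000), (103079215104, 34359738368), (2886218022912, 137438953472)] :=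
  covD_E kA15_eq (.n 2 (.n 2 (.n 2 (.l 0) (.l 0)) (.n 0 (.n 1 (.l 0) (.l 0)) (.n 2 (.l 0) (.l 0)))) (.n 2 (.n 0 (.n 1 (.l 0) (.l 0)) (.n 2 (.l 0) (.l 0))) (.n 2 (.n 0 (.l 0) (.l 0)) (.l 0))))
    [(7068450816, 262144000), (103079215104, 34359738368), (2886218022912, 137438953472)] rfl (by decide +kernel)
end

mutual
theorem A15_c0_t33 : CovD 1 gA15 [(7068450816, 262144000), (103079215104, 34359738368), (3161095929856, 137438953472)] :=
  covD_E kA15_eq (.n 2 (.n 2 (.n 2 (.l 0) (.l 0)) (.n 0 (.l 0) (.l 0))) (.n 2 (.l 0) (.l 0)))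
    [(7068450816, 262144000), (103079215104, 34359738368), (3161095929856, 137438953472)] rfl (by decide +kernel)
theorem A15_c0_t39 : CovD 1 gA15 [(6544162816, 262144000), (34359738368, 34359738368), (3367254360064, 68719476736)] :=
  covD_E kA15_eq (.n 2 (.n 1 (.n 2 (.l 0) (.n 0 (.l 0) (.l 0))) (.n 2 (.l 0) (.l 0))) (.n 0 (.n 2 (.n 2 (.l 0) (.l 0)) (.n 0 (.n 2 (.l 0) (.l 0)) (.n 1 (.l 0) (.l 0)))) (.n 2 (.l 0) (.l 0))))
    [(6544162816, 262144000), (34359738368, 34359738368), (3367254360064, 68719476736)] rfl (by decide +kernel)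
end

mutual
theorem A15_c0_t43 : CovD 1 gA15 [(6413090816, 131072000), (17179869184, 17179869184), (3470333575168, 34359738368)] :=
  covD_E kA15_eq (.n 2 (.n 2 (.l 0) (.l 0)) (.n 0 (.n 2 (.n 2 (.l 0) (.n 0 (.l 1) (.n 0 (.l 1) (.l 1)))) (.l 1)) (.n 2 (.n 0 (.n 1 (.l 0) (.l 0)) (.n 0 (.l 0) (.l 0))) (.l 1))))
    [(6413090816, 131072000), (17179869184, 17179869184), (3470333575168, 34359738368)] rfl (by decide +kernel)
theorem A15_c0_t44 : CovD 1 gA15 [(6413090816, 131072000), (51539607552, 17179869184), (3470333575168, 34359738368)] :=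
  covD_E kA15_eq (.n 2 (.n 2 (.l 0) (.l 0)) (.n 2 (.n 0 (.n 0 (.n 1 (.l 0) (.l 0)) (.n 0 (.l 0) (.l 0))) (.n 1 (.l 0) (.l 0))) (.n 0 (.l 1) (.n 0 (.l 1) (.l 1)))))
    [(6413090816, 131072000), (51539607552, 17179869184), (3470333575168, 34359738368)] rfl (by decide +kernel)
end

mutual
theorem A15_c0_t45 : CovD 1 gA15 [(6413090816, 131072000), (34359738368, 34359738368), (3539053051904, 34359738368)] :=
  covD_E kA15_eq (.l 1)
    [(6413090816, 131072000), (34359738368, 34359738368), (3539053051904, 34359738368)] rfl (by decide +kernel)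
theorem A15_c0_t47 : CovD 1 gA15 [(6675234816, 131072000), (17179869184, 17179869184), (3504693313536, 68719476736)] :=
  covD_E kA15_eq (.n 2 (.n 2 (.l 0) (.n 0 (.n 2 (.n 0 (.l 0) (.l 0)) (.l 1)) (.n 2 (.l 0) (.n 0 (.l 1) (.l 1))))) (.l 1))
    [(6675234816, 131072000), (17179869184, 17179869184), (3504693313536, 68719476736)] rfl (by decide +kernel)
end

mutual
theorem A15_c0_t48 : CovD 1 gA15 [(6675234816, 131072000), (51539607552, 17179869184), (3504693313536, 68719476736)] :=
  covD_E kA15_eq (.n 2 (.n 2 (.l 0) (.n 0 (.n 0 (.n 2 (.l 0) (.l 1)) (.n 2 (.l 0) (.n 0 (.l 1) (.l 1)))) (.n 2 (.l 0) (.n 0 (.n 1 (.l 1) (.l 1)) (.n 1 (.l 1) (.l 1)))))) (.l 1))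
    [(6675234816, 131072000), (51539607552, 17179869184), (3504693313536, 68719476736)] rfl (by decide +kernel)
theorem A15_c0_t51 : CovD 1 gA15 [(6413090816, 131072000), (103079215104, 34359738368), (3367254360064, 68719476736)] :=
  covD_E kA15_eq (.n 2 (.n 2 (.l 0) (.l 0)) (.n 1 (.n 2 (.l 0) (.l 0)) (.n 2 (.l 0) (.l 0))))
    [(6413090816, 131072000), (103079215104, 34359738368), (3367254360064, 68719476736)] rfl (by decide +kernel)
end

mutual
theorem A15_c0_t53 : CovD 1 gA15 [(6413090816, 131072000), (85899345920, 17179869184), (3504693313536, 68719476736)] :=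
  covD_E kA15_eq (.n 2 (.n 2 (.n 2 (.l 0) (.l 0)) (.n 0 (.n 0 (.n 2 (.l 0) (.l 1)) (.n 2 (.l 0) (.l 1))) (.n 2 (.l 0) (.n 1 (.l 1) (.n 0 (.l 1) (.l 1)))))) (.l 1))
    [(6413090816, 131072000), (85899345920, 17179869184), (3504693313536, 68719476736)] rfl (by decide +kernel)
theorem A15_c0_t54 : CovD 1 gA15 [(6413090816, 131072000), (120259084288, 17179869184), (3504693313536, 68719476736)] :=
  covD_E kA15_eq (.n 2 (.n 1 (.n 2 (.l 0) (.n 0 (.n 2 (.l 0) (.n 0 (.l 1) (.l 1))) (.n 2 (.l 0) (.n 0 (.l 1) (.n 0 (.l 1) (.l 1)))))) (.n 2 (.l 0) (.n 2 (.l 0) (.n 0 (.n 0 (.l 1) (.l 1)) (.n 2 (.l 0) (.l 1)))))) (.l 1))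
    [(6413090816, 131072000), (120259084288, 17179869184), (3504693313536, 68719476736)] rfl (by decide +kernel)
end

mutual
theorem A15_c0_t56 : CovD 1 gA15 [(6675234816, 131072000), (103079215104, 34359738368), (3367254360064, 68719476736)] :=
  covD_E kA15_eq (.n 2 (.n 1 (.l 0) (.l 0)) (.n 2 (.l 0) (.l 0)))
    [(6675234816, 131072000), (103079215104, 34359738368), (3367254360064, 68719476736)] rfl (by decide +kernel)
theorem A15_c0_t58 : CovD 1 gA15 [(6675234816, 131072000), (85899345920, 17179869184), (3504693313536, 68719476736)] :=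
  covD_E kA15_eq (.n 2 (.n 2 (.l 0) (.n 0 (.n 2 (.l 0) (.n 1 (.n 0 (.l 1) (.l 1)) (.n 2 (.l 0) (.l 1)))) (.n 2 (.l 0) (.n 0 (.n 2 (.l 0) (.l 1)) (.n 2 (.l 0) (.l 1)))))) (.n 0 (.l 1) (.l 1)))
    [(6675234816, 131072000), (85899345920, 17179869184), (3504693313536, 68719476736)] rfl (by decide +kernel)
end

mutual
theorem A15_c0_t59 : CovD 1 gA15 [(6675234816, 131072000), (120259084288, 17179869184), (3504693313536, 68719476736)] :=
  covD_E kA15_eq (.n 2 (.n 2 (.l 0) (.n 2 (.l 0) (.n 0 (.n 0 (.n 2 (.l 0) (.l 1)) (.n 2 (.l 0) (.l 1))) (.n 2 (.l 0) (.n 1 (.l 1) (.l 0)))))) (.n 0 (.l 1) (.l 1)))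
    [(6675234816, 131072000), (120259084288, 17179869184), (3504693313536, 68719476736)] rfl (by decide +kernel)
theorem A15_c0_t60 : CovD 1 gA15 [(6544162816, 262144000), (68719476736, 68719476736), (3710851743744, 137438953472)] :=
  covD_E kA15_eq (.l 1)
    [(6544162816, 262144000), (68719476736, 68719476736), (3710851743744, 137438953472)] rfl (by decide +kernel)
end

mutual
theorem A15_c0_t65 : CovD 1 gA15 [(7068450816, 262144000), (17179869184, 17179869184), (3367254360064, 68719476736)] :=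
  covD_E kA15_eq (.n 2 (.n 0 (.l 0) (.l 0)) (.n 2 (.l 0) (.l 0)))
    [(7068450816, 262144000), (17179869184, 17179869184), (3367254360064, 68719476736)] rfl (by decide +kernel)
theorem A15_c0_t67 : CovD 1 gA15 [(7068450816, 262144000), (17179869184, 17179869184), (3470333575168, 34359738368)] :=
  covD_E kA15_eq (.n 2 (.l 0) (.n 0 (.n 0 (.n 2 (.l 0) (.n 2 (.n 1 (.l 1) (.l 0)) (.l 1))) (.n 2 (.l 0) (.n 2 (.n 0 (.l 0) (.l 0)) (.l 1)))) (.n 2 (.l 0) (.n 0 (.n 2 (.l 0) (.n 0 (.l 1) (.l 1))) (.n 1 (.l 0) (.l 0))))))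
    [(7068450816, 262144000), (17179869184, 17179869184), (3470333575168, 34359738368)] rfl (by decide +kernel)
end

mutual
theorem A15_c0_t68 : CovD 1 gA15 [(7068450816, 262144000), (17179869184, 17179869184), (3539053051904, 34359738368)] :=
  covD_E kA15_eq (.n 0 (.l 1) (.n 0 (.l 1) (.l 1)))
    [(7068450816, 262144000), (17179869184, 17179869184), (3539053051904, 34359738368)] rfl (by decide +kernel)
theorem A15_c0_t70 : CovD 1 gA15 [(6937378816, 131072000), (51539607552, 17179869184), (3435973836800, 137438953472)] :=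
  covD_E kA15_eq (.n 2 (.n 2 (.l 0) (.l 0)) (.n 2 (.n 2 (.l 0) (.n 0 (.n 2 (.l 0) (.n 0 (.n 2 (.l 0) (.l 1)) (.n 2 (.l 0) (.l 1)))) (.n 2 (.l 0) (.n 2 (.l 0) (.n 1 (.l 1) (.l 1)))))) (.n 0 (.l 1) (.l 1))))
    [(6937378816, 131072000), (51539607552, 17179869184), (3435973836800, 137438953472)] rfl (by decide +kernel)
end

mutual
theorem A15_c0_t71 : CovD 1 gA15 [(7199522816, 131072000), (51539607552, 17179869184), (3435973836800, 137438953472)] :=
  covD_E kA15_eq (.n 2 (.n 2 (.l 0) (.l 0)) (.n 0 (.n 2 (.n 0 (.n 1 (.l 0) (.l 0)) (.n 0 (.l 0) (.l 0))) (.l 1)) (.n 0 (.n 2 (.l 0) (.l 1)) (.n 2 (.l 0) (.l 1)))))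
    [(7199522816, 131072000), (51539607552, 17179869184), (3435973836800, 137438953472)] rfl (by decide +kernel)
theorem A15_c0_t72 : CovD 1 gA15 [(7068450816, 262144000), (34359738368, 34359738368), (3710851743744, 137438953472)] :=
  covD_E kA15_eq (.l 1)
    [(7068450816, 262144000), (34359738368, 34359738368), (3710851743744, 137438953472)] rfl (by decide +kernel)
end

mutual
theorem A15_c0_t75 : CovD 1 gA15 [(7068450816, 262144000), (103079215104, 34359738368), (3367254360064, 68719476736)] :=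
  covD_E kA15_eq (.n 2 (.n 0 (.l 0) (.l 0)) (.n 2 (.l 0) (.l 0)))
    [(7068450816, 262144000), (103079215104, 34359738368), (3367254360064, 68719476736)] rfl (by decide +kernel)
theorem A15_c0_t78 : CovD 1 gA15 [(6937378816, 131072000), (103079215104, 34359738368), (3470333575168, 34359738368)] :=
  covD_E kA15_eq (.n 2 (.l 0) (.n 0 (.n 1 (.n 0 (.n 1 (.n 0 (.l 0) (.l 0)) (.l 0)) (.n 1 (.l 0) (.l 0))) (.n 1 (.l 0) (.l 0))) (.n 1 (.n 0 (.n 0 (.l 0) (.l 0)) (.l 0)) (.l 0))))
    [(6937378816, 131072000), (103079215104, 34359738368), (3470333575168, 34359738368)] rfl (by decide +kernel)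
end

mutual
theorem A15_c0_t79 : CovD 1 gA15 [(7199522816, 131072000), (103079215104, 34359738368), (3470333575168, 34359738368)] :=
  covD_E kA15_eq (.n 0 (.n 1 (.n 0 (.l 0) (.l 0)) (.l 0)) (.n 1 (.l 0) (.l 0)))
    [(7199522816, 131072000), (103079215104, 34359738368), (3470333575168, 34359738368)] rfl (by decide +kernel)
theorem A15_c0_t81 : CovD 1 gA15 [(6937378816, 131072000), (103079215104, 34359738368), (3539053051904, 34359738368)] :=
  covD_E kA15_eq (.n 0 (.n 1 (.l 1) (.n 0 (.l 1) (.l 1))) (.n 2 (.n 1 (.l 1) (.n 1 (.l 1) (.l 1))) (.l 1)))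
    [(6937378816, 131072000), (103079215104, 34359738368), (3539053051904, 34359738368)] rfl (by decide +kernel)
end

mutual
theorem A15_c0_t82 : CovD 1 gA15 [(7199522816, 131072000), (103079215104, 34359738368), (3539053051904, 34359738368)] :=
  covD_E kA15_eq (.n 2 (.n 1 (.n 0 (.n 0 (.l 1) (.l 1)) (.n 1 (.l 1) (.n 0 (.l 1) (.l 1)))) (.n 2 (.n 0 (.n 2 (.n 1 (.l 1) (.l 0)) (.l 1)) (.n 0 (.n 1 (.l 1) (.l 0)) (.n 2 (.l 0) (.l 1)))) (.l 1))) (.l 1))
    [(7199522816, 131072000), (103079215104, 34359738368), (3539053051904, 34359738368)] rfl (by decide +kernel)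
theorem A15_c0_t83 : CovD 1 gA15 [(7068450816, 262144000), (103079215104, 34359738368), (3710851743744, 137438953472)] :=
  covD_E kA15_eq (.l 1)
    [(7068450816, 262144000), (103079215104, 34359738368), (3710851743744, 137438953472)] rfl (by decide +kernel)
end

theorem A15_c0_t84 : CovD 1 gA15 [(6806306816, 524288000), (68719476736, 68719476736), (4123168604160, 274877906944)] :=
  covD_E kA15_eq (.l 1)
    [(6806306816, 524288000), (68719476736, 68719476736), (4123168604160, 274877906944)] rfl (by decide +kernel)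

theorem A15_c0_t5 : CovD 1 gA15 [(6806306816, 524288000), (34359738368, 34359738368), (137438953472, 137438953472)] :=
  covD_split 2 (by decide +kernel) A15_c0_t6 A15_c0_t7

theorem A15_c0_t4 : CovD 1 gA15 [(6806306816, 524288000), (34359738368, 34359738368), (274877906944, 274877906944)] :=
  covD_split 2 (by decide +kernel) A15_c0_t5 A15_c0_t8

theorem A15_c0_t3 : CovD 1 gA15 [(6806306816, 524288000), (34359738368, 34359738368), (549755813888, 549755813888)] :=
  covD_split 2 (by decide +kernel) A15_c0_t4 A15_c0_t9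

theorem A15_c0_t2 : CovD 1 gA15 [(6806306816, 524288000), (34359738368, 34359738368), (1099511627776, 1099511627776)] :=
  covD_split 2 (by decide +kernel) A15_c0_t3 A15_c0_t10

theorem A15_c0_t12 : CovD 1 gA15 [(6806306816, 524288000), (103079215104, 34359738368), (549755813888, 549755813888)] :=
  covD_split 2 (by decide +kernel) A15_c0_t13 A15_c0_t14

theorem A15_c0_t11 : CovD 1 gA15 [(6806306816, 524288000), (103079215104, 34359738368), (1099511627776, 1099511627776)] :=
  covD_split 2 (by decide +kernel) A15_c0_t12 A15_c0_t15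

theorem A15_c0_t1 : CovD 1 gA15 [(6806306816, 524288000), (68719476736, 68719476736), (1099511627776, 1099511627776)] :=
  covD_split 1 (by decide +kernel) A15_c0_t2 A15_c0_t11

theorem A15_c0_t21 : CovD 1 gA15 [(6544162816, 262144000), (34359738368, 34359738368), (3023656976384, 274877906944)] :=
  covD_split 2 (by decide +kernel) A15_c0_t22 A15_c0_t23

theorem A15_c0_t24 : CovD 1 gA15 [(7068450816, 262144000), (34359738368, 34359738368), (3023656976384, 274877906944)] :=
  covD_split 2 (by decide +kernel) A15_c0_t25 A15_c0_t26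

theorem A15_c0_t20 : CovD 1 gA15 [(6806306816, 524288000), (34359738368, 34359738368), (3023656976384, 274877906944)] :=
  covD_split 0 (by decide +kernel) A15_c0_t21 A15_c0_t24

theorem A15_c0_t18 : CovD 1 gA15 [(6806306816, 524288000), (34359738368, 34359738368), (2748779069440, 549755813888)] :=
  covD_split 2 (by decide +kernel) A15_c0_t19 A15_c0_t20

theorem A15_c0_t31 : CovD 1 gA15 [(7068450816, 262144000), (103079215104, 34359738368), (3023656976384, 274877906944)] :=
  covD_split 2 (by decide +kernel) A15_c0_t32 A15_c0_t33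

theorem A15_c0_t29 : CovD 1 gA15 [(6806306816, 524288000), (103079215104, 34359738368), (3023656976384, 274877906944)] :=
  covD_split 0 (by decide +kernel) A15_c0_t30 A15_c0_t31

theorem A15_c0_t27 : CovD 1 gA15 [(6806306816, 524288000), (103079215104, 34359738368), (2748779069440, 549755813888)] :=
  covD_split 2 (by decide +kernel) A15_c0_t28 A15_c0_t29

theorem A15_c0_t17 : CovD 1 gA15 [(6806306816, 524288000), (68719476736, 68719476736), (2748779069440, 549755813888)] :=
  covD_split 1 (by decide +kernel) A15_c0_t18 A15_c0_t27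

theorem A15_c0_t42 : CovD 1 gA15 [(6413090816, 131072000), (34359738368, 34359738368), (3470333575168, 34359738368)] :=
  covD_split 1 (by decide +kernel) A15_c0_t43 A15_c0_t44

theorem A15_c0_t41 : CovD 1 gA15 [(6413090816, 131072000), (34359738368, 34359738368), (3504693313536, 68719476736)] :=
  covD_split 2 (by decide +kernel) A15_c0_t42 A15_c0_t45

theorem A15_c0_t46 : CovD 1 gA15 [(6675234816, 131072000), (34359738368, 34359738368), (3504693313536, 68719476736)] :=
  covD_split 1 (by decide +kernel) A15_c0_t47 A15_c0_t48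

theorem A15_c0_t40 : CovD 1 gA15 [(6544162816, 262144000), (34359738368, 34359738368), (3504693313536, 68719476736)] :=
  covD_split 0 (by decide +kernel) A15_c0_t41 A15_c0_t46

theorem A15_c0_t38 : CovD 1 gA15 [(6544162816, 262144000), (34359738368, 34359738368), (3435973836800, 137438953472)] :=
  covD_split 2 (by decide +kernel) A15_c0_t39 A15_c0_t40

theorem A15_c0_t52 : CovD 1 gA15 [(6413090816, 131072000), (103079215104, 34359738368), (3504693313536, 68719476736)] :=
  covD_split 1 (by decide +kernel) A15_c0_t53 A15_c0_t54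

theorem A15_c0_t50 : CovD 1 gA15 [(6413090816, 131072000), (103079215104, 34359738368), (3435973836800, 137438953472)] :=
  covD_split 2 (by decide +kernel) A15_c0_t51 A15_c0_t52

theorem A15_c0_t57 : CovD 1 gA15 [(6675234816, 131072000), (103079215104, 34359738368), (3504693313536, 68719476736)] :=
  covD_split 1 (by decide +kernel) A15_c0_t58 A15_c0_t59

theorem A15_c0_t55 : CovD 1 gA15 [(6675234816, 131072000), (103079215104, 34359738368), (3435973836800, 137438953472)] :=
  covD_split 2 (by decide +kernel) A15_c0_t56 A15_c0_t57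

theorem A15_c0_t49 : CovD 1 gA15 [(6544162816, 262144000), (103079215104, 34359738368), (3435973836800, 137438953472)] :=
  covD_split 0 (by decide +kernel) A15_c0_t50 A15_c0_t55

theorem A15_c0_t37 : CovD 1 gA15 [(6544162816, 262144000), (68719476736, 68719476736), (3435973836800, 137438953472)] :=
  covD_split 1 (by decide +kernel) A15_c0_t38 A15_c0_t49

theorem A15_c0_t36 : CovD 1 gA15 [(6544162816, 262144000), (68719476736, 68719476736), (3573412790272, 274877906944)] :=
  covD_split 2 (by decide +kernel) A15_c0_t37 A15_c0_t60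

theorem A15_c0_t66 : CovD 1 gA15 [(7068450816, 262144000), (17179869184, 17179869184), (3504693313536, 68719476736)] :=
  covD_split 2 (by decide +kernel) A15_c0_t67 A15_c0_t68

theorem A15_c0_t64 : CovD 1 gA15 [(7068450816, 262144000), (17179869184, 17179869184), (3435973836800, 137438953472)] :=
  covD_split 2 (by decide +kernel) A15_c0_t65 A15_c0_t66

theorem A15_c0_t69 : CovD 1 gA15 [(7068450816, 262144000), (51539607552, 17179869184), (3435973836800, 137438953472)] :=
  covD_split 0 (by decide +kernel) A15_c0_t70 A15_c0_t71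

theorem A15_c0_t63 : CovD 1 gA15 [(7068450816, 262144000), (34359738368, 34359738368), (3435973836800, 137438953472)] :=
  covD_split 1 (by decide +kernel) A15_c0_t64 A15_c0_t69

theorem A15_c0_t62 : CovD 1 gA15 [(7068450816, 262144000), (34359738368, 34359738368), (3573412790272, 274877906944)] :=
  covD_split 2 (by decide +kernel) A15_c0_t63 A15_c0_t72

theorem A15_c0_t77 : CovD 1 gA15 [(7068450816, 262144000), (103079215104, 34359738368), (3470333575168, 34359738368)] :=
  covD_split 0 (by decide +kernel) A15_c0_t78 A15_c0_t79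

theorem A15_c0_t80 : CovD 1 gA15 [(7068450816, 262144000), (103079215104, 34359738368), (3539053051904, 34359738368)] :=
  covD_split 0 (by decide +kernel) A15_c0_t81 A15_c0_t82

theorem A15_c0_t76 : CovD 1 gA15 [(7068450816, 262144000), (103079215104, 34359738368), (3504693313536, 68719476736)] :=
  covD_split 2 (by decide +kernel) A15_c0_t77 A15_c0_t80

theorem A15_c0_t74 : CovD 1 gA15 [(7068450816, 262144000), (103079215104, 34359738368), (3435973836800, 137438953472)] :=
  covD_split 2 (by decide +kernel) A15_c0_t75 A15_c0_t76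

theorem A15_c0_t73 : CovD 1 gA15 [(7068450816, 262144000), (103079215104, 34359738368), (3573412790272, 274877906944)] :=
  covD_split 2 (by decide +kernel) A15_c0_t74 A15_c0_t83

theorem A15_c0_t61 : CovD 1 gA15 [(7068450816, 262144000), (68719476736, 68719476736), (3573412790272, 274877906944)] :=
  covD_split 1 (by decide +kernel) A15_c0_t62 A15_c0_t73

theorem A15_c0_t35 : CovD 1 gA15 [(6806306816, 524288000), (68719476736, 68719476736), (3573412790272, 274877906944)] :=
  covD_split 0 (by decide +kernel) A15_c0_t36 A15_c0_t61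

theorem A15_c0_t34 : CovD 1 gA15 [(6806306816, 524288000), (68719476736, 68719476736), (3848290697216, 549755813888)] :=
  covD_split 2 (by decide +kernel) A15_c0_t35 A15_c0_t84

theorem A15_c0_t16 : CovD 1 gA15 [(6806306816, 524288000), (68719476736, 68719476736), (3298534883328, 1099511627776)] :=
  covD_split 2 (by decide +kernel) A15_c0_t17 A15_c0_t34

theorem A15_c0 : CovD 1 gA15 [(6806306816, 524288000), (68719476736, 68719476736), (2199023255552, 2199023255552)] :=
  covD_split 2 (by decide +kernel) A15_c0_t1 A15_c0_t16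

end Pool.Agent.helper14.NS.Q150a
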