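import Pool.Agent.helper14.NS.Q150a.PN15

/-!
Generated: certificates.
-/

namespace Pool.Agent.helper14.NS.Q150a

open Pool.Agent.helper31.IA (Z)
open Pool.Agent.helper31.IX (Op XOps runX Cov CovD cov_split covD_split)
open Pool.Agent.helper31.IC (TD)
open Pool.Agent.helper63.RG (reloc)
open Pool.Agent.helper63.NF hiding TD
open Pool.Agent.helper4.NS
open Pool.Agent.helper14.CF (xE covD_E)
open Pool.Agent.helper14.NR (share)

mutual
theorem A15_c1_t3 : CovD 1 gA15 [(6806306816, 524288000), (171798691840, 34359738368), (549755813888, 549755813888)] :=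
  covD_E kA15_eq (.n 2 (.n 0 (.n 2 (.n 2 (.l 0) (.l 0)) (.n 2 (.l 0) (.l 0))) (.n 2 (.n 2 (.l 0) (.l 0)) (.n 2 (.l 0) (.l 0)))) (.n 2 (.n 2 (.l 0) (.l 0)) (.n 0 (.l 0) (.l 0))))
    [(6806306816, 524288000), (171798691840, 34359738368), (549755813888, 549755813888)] rfl (by decide +kernel)
theorem A15_c1_t4 : CovD 1 gA15 [(6806306816, 524288000), (171798691840, 34359738368), (1649267441664, 549755813888)] :=
  covD_E kA15_eq (.n 2 (.n 0 (.n 2 (.l 0) (.l 0)) (.n 2 (.l 0) (.l 0))) (.n 2 (.n 2 (.l 0) (.l 0)) (.n 2 (.l 0) (.l 0))))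
    [(6806306816, 524288000), (171798691840, 34359738368), (1649267441664, 549755813888)] rfl (by decide +kernel)
end

mutual
theorem A15_c1_t5 : CovD 1 gA15 [(6806306816, 524288000), (240518168576, 34359738368), (1099511627776, 1099511627776)] :=
  covD_E kA15_eq (.n 2 (.n 2 (.n 2 (.n 2 (.l 0) (.l 0)) (.n 2 (.l 0) (.l 0))) (.n 2 (.n 2 (.l 0) (.l 0)) (.n 0 (.l 0) (.l 0)))) (.n 2 (.n 0 (.n 2 (.l 0) (.l 0)) (.n 2 (.l 0) (.l 0))) (.n 2 (.n 2 (.l 0) (.l 0)) (.n 2 (.l 0) (.l 0)))))
    [(6806306816, 524288000), (240518168576, 34359738368), (1099511627776, 1099511627776)] rfl (by decide +kernel)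
theorem A15_c1_t10 : CovD 1 gA15 [(6544162816, 262144000), (171798691840, 34359738368), (2473901162496, 274877906944)] :=
  covD_E kA15_eq (.n 2 (.n 2 (.l 0) (.l 0)) (.n 2 (.n 2 (.l 0) (.l 0)) (.n 2 (.l 0) (.n 0 (.l 0) (.l 0)))))
    [(6544162816, 262144000), (171798691840, 34359738368), (2473901162496, 274877906944)] rfl (by decide +kernel)
end

mutual
theorem A15_c1_t11 : CovD 1 gA15 [(6544162816, 262144000), (171798691840, 34359738368), (3023656976384, 274877906944)] :=
  covD_E kA15_eq (.n 2 (.n 2 (.n 2 (.n 1 (.l 0) (.l 0)) (.n 2 (.l 0) (.l 0))) (.n 2 (.n 2 (.l 0) (.l 0)) (.n 2 (.l 0) (.l 0)))) (.n 2 (.n 2 (.n 2 (.l 0) (.l 0)) (.n 2 (.l 0) (.l 0))) (.n 2 (.n 2 (.l 0) (.l 0)) (.n 2 (.l 0) (.l 0)))))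
    [(6544162816, 262144000), (171798691840, 34359738368), (3023656976384, 274877906944)] rfl (by decide +kernel)
theorem A15_c1_t13 : CovD 1 gA15 [(6544162816, 262144000), (240518168576, 34359738368), (2473901162496, 274877906944)] :=
  covD_E kA15_eq (.n 2 (.n 2 (.l 0) (.l 0)) (.n 2 (.n 2 (.l 0) (.l 0)) (.n 2 (.l 0) (.n 0 (.l 0) (.l 0)))))
    [(6544162816, 262144000), (240518168576, 34359738368), (2473901162496, 274877906944)] rfl (by decide +kernel)
end

mutual
theorem A15_c1_t14 : CovD 1 gA15 [(6544162816, 262144000), (240518168576, 34359738368), (3023656976384, 274877906944)] :=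
  covD_E kA15_eq (.n 2 (.n 2 (.n 1 (.n 2 (.l 0) (.l 0)) (.n 2 (.l 0) (.l 0))) (.n 2 (.n 2 (.l 0) (.l 0)) (.n 2 (.l 0) (.l 0)))) (.n 2 (.n 1 (.n 2 (.l 0) (.l 0)) (.n 2 (.l 0) (.l 0))) (.n 2 (.l 0) (.n 0 (.l 0) (.l 0)))))
    [(6544162816, 262144000), (240518168576, 34359738368), (3023656976384, 274877906944)] rfl (by decide +kernel)
theorem A15_c1_t17 : CovD 1 gA15 [(7068450816, 262144000), (171798691840, 34359738368), (2473901162496, 274877906944)] :=
  covD_E kA15_eq (.n 2 (.n 2 (.l 0) (.n 2 (.l 0) (.l 0))) (.n 2 (.n 2 (.l 0) (.n 0 (.l 0) (.l 0))) (.n 2 (.n 1 (.l 0) (.l 0)) (.n 2 (.l 0) (.n 0 (.l 0) (.l 0))))))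
    [(7068450816, 262144000), (171798691840, 34359738368), (2473901162496, 274877906944)] rfl (by decide +kernel)
end

mutual
theorem A15_c1_t19 : CovD 1 gA15 [(7068450816, 262144000), (171798691840, 34359738368), (2886218022912, 137438953472)] :=
  covD_E kA15_eq (.n 2 (.n 0 (.n 2 (.n 1 (.l 0) (.l 0)) (.n 2 (.l 0) (.l 0))) (.n 2 (.n 2 (.l 0) (.l 0)) (.n 2 (.l 0) (.l 0)))) (.n 2 (.n 0 (.n 2 (.l 0) (.l 0)) (.n 2 (.l 0) (.l 0))) (.n 2 (.n 0 (.l 0) (.l 0)) (.l 0))))
    [(7068450816, 262144000), (171798691840, 34359738368), (2886218022912, 137438953472)] rfl (by decide +kernel)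
theorem A15_c1_t20 : CovD 1 gA15 [(7068450816, 262144000), (171798691840, 34359738368), (3161095929856, 137438953472)] :=
  covD_E kA15_eq (.n 2 (.n 2 (.n 2 (.l 0) (.l 0)) (.n 0 (.l 0) (.l 0))) (.n 2 (.l 0) (.l 0)))
    [(7068450816, 262144000), (171798691840, 34359738368), (3161095929856, 137438953472)] rfl (by decide +kernel)
end

mutual
theorem A15_c1_t22 : CovD 1 gA15 [(7068450816, 262144000), (240518168576, 34359738368), (2473901162496, 274877906944)] :=
  covD_E kA15_eq (.n 2 (.n 2 (.l 0) (.n 1 (.l 0) (.l 0))) (.n 2 (.n 2 (.l 0) (.n 0 (.l 0) (.l 0))) (.n 2 (.n 1 (.l 0) (.l 0)) (.n 2 (.l 0) (.l 0)))))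
    [(7068450816, 262144000), (240518168576, 34359738368), (2473901162496, 274877906944)] rfl (by decide +kernel)
theorem A15_c1_t23 : CovD 1 gA15 [(7068450816, 262144000), (240518168576, 34359738368), (3023656976384, 274877906944)] :=
  covD_E kA15_eq (.n 2 (.n 2 (.n 2 (.n 2 (.l 0) (.l 0)) (.n 2 (.l 0) (.l 0))) (.n 2 (.n 2 (.l 0) (.l 0)) (.n 1 (.l 0) (.l 0)))) (.n 2 (.n 2 (.n 0 (.l 0) (.l 0)) (.l 0)) (.n 2 (.l 0) (.l 0))))
    [(7068450816, 262144000), (240518168576, 34359738368), (3023656976384, 274877906944)] rfl (by decide +kernel)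
end

mutual
theorem A15_c1_t29 : CovD 1 gA15 [(6544162816, 262144000), (171798691840, 34359738368), (3367254360064, 68719476736)] :=
  covD_E kA15_eq (.n 0 (.n 2 (.n 2 (.l 0) (.l 0)) (.n 2 (.l 0) (.n 1 (.l 0) (.l 0)))) (.n 2 (.l 0) (.n 2 (.l 0) (.l 0))))
    [(6544162816, 262144000), (171798691840, 34359738368), (3367254360064, 68719476736)] rfl (by decide +kernel)
theorem A15_c1_t33 : CovD 1 gA15 [(6347554816, 65536000), (171798691840, 34359738368), (3470333575168, 34359738368)] :=
  covD_E kA15_eq (.n 1 (.n 2 (.l 0) (.n 2 (.l 0) (.n 0 (.n 2 (.l 0) (.l 1)) (.n 2 (.l 0) (.l 1))))) (.n 2 (.l 0) (.n 2 (.l 0) (.n 2 (.l 0) (.n 0 (.l 1) (.l 1))))))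
    [(6347554816, 65536000), (171798691840, 34359738368), (3470333575168, 34359738368)] rfl (by decide +kernel)
end

mutual
theorem A15_c1_t34 : CovD 1 gA15 [(6478626816, 65536000), (171798691840, 34359738368), (3470333575168, 34359738368)] :=
  covD_E kA15_eq (.n 2 (.l 0) (.n 1 (.n 2 (.l 0) (.n 2 (.l 0) (.n 1 (.l 1) (.l 1)))) (.n 0 (.l 0) (.l 0))))
    [(6478626816, 65536000), (171798691840, 34359738368), (3470333575168, 34359738368)] rfl (by decide +kernel)
theorem A15_c1_t35 : CovD 1 gA15 [(6675234816, 131072000), (171798691840, 34359738368), (3470333575168, 34359738368)] :=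
  covD_E kA15_eq (.n 2 (.l 0) (.n 0 (.n 1 (.n 1 (.n 0 (.l 0) (.l 0)) (.l 0)) (.l 0)) (.n 1 (.n 0 (.l 0) (.l 0)) (.l 0))))
    [(6675234816, 131072000), (171798691840, 34359738368), (3470333575168, 34359738368)] rfl (by decide +kernel)
end

mutual
theorem A15_c1_t36 : CovD 1 gA15 [(6544162816, 262144000), (171798691840, 34359738368), (3539053051904, 34359738368)] :=
  covD_E kA15_eq (.n 0 (.n 0 (.n 1 (.l 1) (.l 1)) (.n 1 (.l 1) (.l 1))) (.n 0 (.n 1 (.l 1) (.n 0 (.l 1) (.l 1))) (.n 0 (.n 1 (.l 1) (.n 0 (.l 1) (.l 1))) (.n 1 (.l 1) (.n 1 (.l 1) (.l 1))))))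
    [(6544162816, 262144000), (171798691840, 34359738368), (3539053051904, 34359738368)] rfl (by decide +kernel)
theorem A15_c1_t37 : CovD 1 gA15 [(6544162816, 262144000), (171798691840, 34359738368), (3710851743744, 137438953472)] :=
  covD_E kA15_eq (.l 1)
    [(6544162816, 262144000), (171798691840, 34359738368), (3710851743744, 137438953472)] rfl (by decide +kernel)
end

mutual
theorem A15_c1_t40 : CovD 1 gA15 [(6544162816, 262144000), (240518168576, 34359738368), (3367254360064, 68719476736)] :=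
  covD_E kA15_eq (.n 2 (.n 2 (.l 0) (.l 0)) (.n 2 (.l 0) (.n 0 (.l 0) (.l 0))))
    [(6544162816, 262144000), (240518168576, 34359738368), (3367254360064, 68719476736)] rfl (by decide +kernel)
theorem A15_c1_t42 : CovD 1 gA15 [(6544162816, 262144000), (240518168576, 34359738368), (3470333575168, 34359738368)] :=
  covD_E kA15_eq (.n 2 (.n 0 (.n 0 (.l 0) (.l 0)) (.l 0)) (.n 0 (.n 0 (.n 0 (.n 1 (.l 0) (.l 0)) (.l 0)) (.n 0 (.l 0) (.l 0))) (.n 0 (.l 0) (.l 0))))
    [(6544162816, 262144000), (240518168576, 34359738368), (3470333575168, 34359738368)] rfl (by decide +kernel)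
end

mutual
theorem A15_c1_t43 : CovD 1 gA15 [(6544162816, 262144000), (240518168576, 34359738368), (3539053051904, 34359738368)] :=
  covD_E kA15_eq (.n 2 (.n 0 (.n 0 (.n 0 (.l 1) (.l 1)) (.n 1 (.l 1) (.l 1))) (.n 0 (.n 0 (.n 1 (.l 1) (.l 1)) (.n 1 (.l 1) (.l 1))) (.n 2 (.n 0 (.n 1 (.l 1) (.l 0)) (.n 2 (.l 0) (.l 1))) (.l 1)))) (.l 1))
    [(6544162816, 262144000), (240518168576, 34359738368), (3539053051904, 34359738368)] rfl (by decide +kernel)
theorem A15_c1_t44 : CovD 1 gA15 [(6544162816, 262144000), (240518168576, 34359738368), (3710851743744, 137438953472)] :=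
  covD_E kA15_eq (.l 1)
    [(6544162816, 262144000), (240518168576, 34359738368), (3710851743744, 137438953472)] rfl (by decide +kernel)
end

mutual
theorem A15_c1_t49 : CovD 1 gA15 [(7068450816, 262144000), (154618822656, 17179869184), (3367254360064, 68719476736)] :=
  covD_E kA15_eq (.n 2 (.l 0) (.l 0))
    [(7068450816, 262144000), (154618822656, 17179869184), (3367254360064, 68719476736)] rfl (by decide +kernel)
theorem A15_c1_t51 : CovD 1 gA15 [(7068450816, 262144000), (154618822656, 17179869184), (3470333575168, 34359738368)] :=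
  covD_E kA15_eq (.n 0 (.n 0 (.l 0) (.l 0)) (.l 0))
    [(7068450816, 262144000), (154618822656, 17179869184), (3470333575168, 34359738368)] rfl (by decide +kernel)
end

mutual
theorem A15_c1_t52 : CovD 1 gA15 [(7068450816, 262144000), (154618822656, 17179869184), (3539053051904, 34359738368)] :=
  covD_E kA15_eq (.n 2 (.n 0 (.n 2 (.n 0 (.n 1 (.l 1) (.l 1)) (.n 2 (.n 0 (.l 0) (.l 0)) (.l 1))) (.l 1)) (.n 0 (.n 2 (.n 2 (.l 0) (.n 0 (.l 1) (.l 1))) (.l 1)) (.n 2 (.n 0 (.n 0 (.l 0) (.l 0)) (.l 0)) (.l 1)))) (.l 1))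
    [(7068450816, 262144000), (154618822656, 17179869184), (3539053051904, 34359738368)] rfl (by decide +kernel)
theorem A15_c1_t53 : CovD 1 gA15 [(7068450816, 262144000), (188978561024, 17179869184), (3435973836800, 137438953472)] :=
  covD_E kA15_eq (.n 2 (.n 2 (.l 0) (.l 0)) (.n 2 (.n 0 (.l 0) (.l 0)) (.n 2 (.n 0 (.n 2 (.n 0 (.n 2 (.l 0) (.l 1)) (.n 1 (.n 0 (.l 0) (.l 0)) (.l 0))) (.l 1)) (.n 0 (.n 2 (.n 0 (.l 0) (.l 0)) (.l 1)) (.n 2 (.l 0) (.l 1)))) (.l 1))))
    [(7068450816, 262144000), (188978561024, 17179869184), (3435973836800, 137438953472)] rfl (by decide +kernel)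
end

mutual
theorem A15_c1_t54 : CovD 1 gA15 [(7068450816, 262144000), (171798691840, 34359738368), (3710851743744, 137438953472)] :=
  covD_E kA15_eq (.l 1)
    [(7068450816, 262144000), (171798691840, 34359738368), (3710851743744, 137438953472)] rfl (by decide +kernel)
theorem A15_c1_t57 : CovD 1 gA15 [(7068450816, 262144000), (240518168576, 34359738368), (3367254360064, 68719476736)] :=
  covD_E kA15_eq (.n 2 (.l 0) (.n 0 (.l 0) (.l 0)))
    [(7068450816, 262144000), (240518168576, 34359738368), (3367254360064, 68719476736)] rfl (by decide +kernel)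
end

mutual
theorem A15_c1_t59 : CovD 1 gA15 [(6937378816, 131072000), (240518168576, 34359738368), (3504693313536, 68719476736)] :=
  covD_E kA15_eq (.n 2 (.n 0 (.l 0) (.l 0)) (.n 2 (.n 0 (.n 2 (.n 1 (.n 0 (.l 0) (.l 0)) (.l 0)) (.l 1)) (.n 2 (.n 0 (.l 0) (.l 0)) (.l 1))) (.l 1)))
    [(6937378816, 131072000), (240518168576, 34359738368), (3504693313536, 68719476736)] rfl (by decide +kernel)
theorem A15_c1_t60 : CovD 1 gA15 [(7199522816, 131072000), (240518168576, 34359738368), (3504693313536, 68719476736)] :=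
  covD_E kA15_eq (.n 2 (.l 0) (.n 2 (.n 0 (.n 2 (.l 0) (.n 0 (.l 1) (.l 1))) (.n 2 (.l 0) (.n 1 (.l 1) (.l 1)))) (.l 1)))
    [(7199522816, 131072000), (240518168576, 34359738368), (3504693313536, 68719476736)] rfl (by decide +kernel)
end

mutual
theorem A15_c1_t61 : CovD 1 gA15 [(7068450816, 262144000), (240518168576, 34359738368), (3710851743744, 137438953472)] :=
  covD_E kA15_eq (.l 1)
    [(7068450816, 262144000), (240518168576, 34359738368), (3710851743744, 137438953472)] rfl (by decide +kernel)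
theorem A15_c1_t62 : CovD 1 gA15 [(6806306816, 524288000), (206158430208, 68719476736), (4123168604160, 274877906944)] :=
  covD_E kA15_eq (.l 1)
    [(6806306816, 524288000), (206158430208, 68719476736), (4123168604160, 274877906944)] rfl (by decide +kernel)
end

mutual
theorem A15_c2 : CovD 1 gA15 [(6806306816, 524288000), (137438953472, 137438953472), (6597069766656, 2199023255552)] :=
  covD_E kA15_eq (.n 2 (.n 2 (.n 0 (.l 1) (.l 1)) (.l 1)) (.n 2 (.l 1) (.l 1)))
    [(6806306816, 524288000), (137438953472, 137438953472), (6597069766656, 2199023255552)] rfl (by decide +kernel)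
theorem B15_c0_t1 : CovD 1 gB15 [(6806306816, 524288000), (137438953472, 137438953472), (34359738368, 34359738368)] :=
  covD_E kB15_eq (.n 1 (.n 2 (.n 2 (.n 2 (.l 1) (.l 1)) (.n 2 (.l 1) (.l 1))) (.n 2 (.n 2 (.l 1) (.l 1)) (.n 0 (.l 1) (.l 1)))) (.n 2 (.n 2 (.n 2 (.l 1) (.l 1)) (.n 2 (.l 1) (.l 1))) (.n 2 (.n 0 (.l 1) (.l 1)) (.l 1))))
    [(6806306816, 524288000), (137438953472, 137438953472), (34359738368, 34359738368)] rfl (by decide +kernel)
end

mutual
theorem B15_c0_t2 : CovD 1 gB15 [(6806306816, 524288000), (137438953472, 137438953472), (103079215104, 34359738368)] :=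
  covD_E kB15_eq (.n 2 (.n 1 (.n 2 (.l 1) (.l 1)) (.n 2 (.l 1) (.l 1))) (.n 2 (.n 0 (.l 1) (.l 1)) (.l 1)))
    [(6806306816, 524288000), (137438953472, 137438953472), (103079215104, 34359738368)] rfl (by decide +kernel)
theorem C15_c0_t4 : CovD 1 gC15 [(6806306816, 524288000), (17179869184, 17179869184), (274877906944, 274877906944)] :=
  covD_E kC15_eq (.n 2 (.n 2 (.l 0) (.l 0)) (.n 2 (.l 0) (.l 0)))
    [(6806306816, 524288000), (17179869184, 17179869184), (274877906944, 274877906944)] rfl (by decide +kernel)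
end

mutual
theorem C15_c0_t5 : CovD 1 gC15 [(6806306816, 524288000), (17179869184, 17179869184), (824633720832, 274877906944)] :=
  covD_E kC15_eq (.n 1 (.n 1 (.n 2 (.l 0) (.n 2 (.l 0) (.n 2 (.l 0) (.n 2 (.l 0) (.n 2 (.l 0) (.n 2 (.l 0) (.n 2 (.l 0) (.l 1)))))))) (.n 2 (.l 0) (.l 0))) (.n 2 (.l 0) (.n 0 (.l 0) (.l 0))))
    [(6806306816, 524288000), (17179869184, 17179869184), (824633720832, 274877906944)] rfl (by decide +kernel)
theorem C15_c0_t6 : CovD 1 gC15 [(6806306816, 524288000), (51539607552, 17179869184), (549755813888, 549755813888)] :=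
  covD_E kC15_eq (.n 2 (.n 2 (.l 0) (.l 0)) (.n 2 (.l 0) (.n 0 (.l 0) (.l 0))))
    [(6806306816, 524288000), (51539607552, 17179869184), (549755813888, 549755813888)] rfl (by decide +kernel)
end

mutual
theorem C15_c0_t7 : CovD 1 gC15 [(6806306816, 524288000), (103079215104, 34359738368), (549755813888, 549755813888)] :=
  covD_E kC15_eq (.n 2 (.n 2 (.l 0) (.l 0)) (.n 2 (.l 0) (.l 0)))
    [(6806306816, 524288000), (103079215104, 34359738368), (549755813888, 549755813888)] rfl (by decide +kernel)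
theorem C15_c0_t8 : CovD 1 gC15 [(6806306816, 524288000), (206158430208, 68719476736), (549755813888, 549755813888)] :=
  covD_E kC15_eq (.n 0 (.n 2 (.n 2 (.l 0) (.l 0)) (.n 2 (.l 0) (.l 0))) (.n 2 (.n 2 (.l 0) (.l 0)) (.n 2 (.l 0) (.l 0))))
    [(6806306816, 524288000), (206158430208, 68719476736), (549755813888, 549755813888)] rfl (by decide +kernel)
end

mutual
theorem D15_c0_t1 : CovD 1 gD15 [(6806306816, 524288000), (137438953472, 137438953472), (431805169664, 431805169664)] :=
  covD_E kD15_eq (.n 2 (.n 2 (.n 2 (.n 2 (.l 0) (.l 0)) (.n 2 (.l 0) (.l 0))) (.n 2 (.n 2 (.l 0) (.l 0)) (.n 2 (.l 0) (.l 0)))) (.n 2 (.n 2 (.n 2 (.l 0) (.l 0)) (.n 2 (.l 0) (.l 0))) (.n 2 (.n 2 (.l 0) (.l 0)) (.n 2 (.l 0) (.l 0)))))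
    [(6806306816, 524288000), (137438953472, 137438953472), (431805169664, 431805169664)] rfl (by decide +kernel)
theorem D15_c0_t3 : CovD 1 gD15 [(6806306816, 524288000), (137438953472, 137438953472), (1079512924160, 215902584832)] :=
  covD_E kD15_eq (.n 2 (.n 2 (.n 2 (.l 0) (.l 0)) (.n 2 (.l 0) (.l 0))) (.n 2 (.n 0 (.n 2 (.l 0) (.l 0)) (.n 2 (.l 0) (.l 0))) (.n 0 (.n 2 (.l 0) (.l 0)) (.n 2 (.l 0) (.l 0)))))
    [(6806306816, 524288000), (137438953472, 137438953472), (1079512924160, 215902584832)] rfl (by decide +kernel)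
end

mutual
theorem D15_c0_t4 : CovD 1 gD15 [(6806306816, 524288000), (137438953472, 137438953472), (1511318093824, 215902584832)] :=
  covD_E kD15_eq (.n 2 (.n 2 (.n 0 (.n 2 (.l 0) (.l 0)) (.n 2 (.l 0) (.l 0))) (.n 0 (.n 2 (.l 0) (.l 0)) (.n 2 (.l 0) (.l 0)))) (.n 2 (.n 0 (.n 2 (.l 0) (.l 0)) (.n 2 (.l 0) (.l 0))) (.n 2 (.n 0 (.l 0) (.l 0)) (.l 0))))
    [(6806306816, 524288000), (137438953472, 137438953472), (1511318093824, 215902584832)] rfl (by decide +kernel)
theorem E15_c0_t3 : CovD 1 gE15 [(6806306816, 524288000), (137438953472, 137438953472), (107951292416, 107951292416)] :=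
  covD_E kE15_eq (.l 1)
    [(6806306816, 524288000), (137438953472, 137438953472), (107951292416, 107951292416)] rfl (by decide +kernel)
end

mutual
theorem E15_c0_t5 : CovD 1 gE15 [(6806306816, 524288000), (137438953472, 137438953472), (269878231040, 53975646208)] :=
  covD_E kE15_eq (.l 1)
    [(6806306816, 524288000), (137438953472, 137438953472), (269878231040, 53975646208)] rfl (by decide +kernel)
theorem E15_c0_t7 : CovD 1 gE15 [(6806306816, 524288000), (137438953472, 137438953472), (350841700352, 26987823104)] :=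
  covD_E kE15_eq (.n 0 (.n 1 (.n 0 (.n 1 (.n 1 (.n 0 (.n 2 (.l 1) (.n 2 (.l 1) (.n 0 (.n 2 (.n 1 (.l 0) (.l 1)) (.l 0)) (.n 2 (.l 1) (.l 0))))) (.l 1)) (.l 1)) (.l 1)) (.l 1)) (.l 1)) (.l 1))
    [(6806306816, 524288000), (137438953472, 137438953472), (350841700352, 26987823104)] rfl (by decide +kernel)
end

mutual
theorem E15_c0_t13 : CovD 1 gE15 [(6413090816, 131072000), (34359738368, 34359738368), (391323435008, 13493911552)] :=
  covD_E kE15_eq (.n 2 (.n 1 (.l 0) (.n 0 (.n 1 (.l 0) (.n 0 (.l 0) (.n 2 (.l 1) (.l 0)))) (.n 0 (.n 1 (.l 0) (.l 1)) (.l 1)))) (.l 0))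
    [(6413090816, 131072000), (34359738368, 34359738368), (391323435008, 13493911552)] rfl (by decide +kernel)
theorem E15_c0_t14 : CovD 1 gE15 [(6675234816, 131072000), (34359738368, 34359738368), (391323435008, 13493911552)] :=
  covD_E kE15_eq (.n 1 (.n 2 (.n 0 (.n 2 (.l 1) (.l 0)) (.l 1)) (.l 0)) (.n 2 (.l 1) (.n 0 (.l 0) (.n 1 (.l 0) (.l 1)))))
    [(6675234816, 131072000), (34359738368, 34359738368), (391323435008, 13493911552)] rfl (by decide +kernel)
end

mutual
theorem E15_c0_t15 : CovD 1 gE15 [(6544162816, 262144000), (34359738368, 34359738368), (418311258112, 13493911552)] :=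
  covD_E kE15_eq (.l 0)
    [(6544162816, 262144000), (34359738368, 34359738368), (418311258112, 13493911552)] rfl (by decide +kernel)
theorem E15_c0_t18 : CovD 1 gE15 [(6413090816, 131072000), (85899345920, 17179869184), (404817346560, 26987823104)] :=
  covD_E kE15_eq (.n 2 (.n 0 (.n 2 (.n 1 (.n 2 (.l 1) (.l 0)) (.l 1)) (.l 0)) (.n 2 (.l 1) (.n 1 (.l 0) (.n 2 (.l 1) (.l 0))))) (.l 0))
    [(6413090816, 131072000), (85899345920, 17179869184), (404817346560, 26987823104)] rfl (by decide +kernel)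
end

mutual
theorem E15_c0_t19 : CovD 1 gE15 [(6413090816, 131072000), (120259084288, 17179869184), (404817346560, 26987823104)] :=
  covD_E kE15_eq (.n 2 (.n 0 (.n 1 (.n 2 (.l 1) (.n 2 (.l 1) (.l 0))) (.l 1)) (.l 1)) (.n 2 (.n 2 (.l 0) (.l 0)) (.l 0)))
    [(6413090816, 131072000), (120259084288, 17179869184), (404817346560, 26987823104)] rfl (by decide +kernel)
theorem E15_c0_t20 : CovD 1 gE15 [(6675234816, 131072000), (103079215104, 34359738368), (404817346560, 26987823104)] :=
  covD_E kE15_eq (.n 2 (.l 1) (.n 2 (.n 0 (.n 1 (.l 0) (.n 1 (.l 0) (.l 1))) (.n 0 (.n 1 (.l 0) (.l 1)) (.l 1))) (.l 0)))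
    [(6675234816, 131072000), (103079215104, 34359738368), (404817346560, 26987823104)] rfl (by decide +kernel)
end

mutual
theorem E15_c0_t22 : CovD 1 gE15 [(6544162816, 262144000), (206158430208, 68719476736), (391323435008, 13493911552)] :=
  covD_E kE15_eq (.l 1)
    [(6544162816, 262144000), (206158430208, 68719476736), (391323435008, 13493911552)] rfl (by decide +kernel)
theorem E15_c0_t24 : CovD 1 gE15 [(6413090816, 131072000), (206158430208, 68719476736), (418311258112, 13493911552)] :=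
  covD_E kE15_eq (.n 1 (.n 1 (.n 2 (.n 0 (.n 1 (.l 0) (.n 2 (.l 1) (.l 0))) (.l 1)) (.l 0)) (.n 2 (.l 1) (.n 0 (.l 0) (.n 1 (.l 0) (.l 1))))) (.n 1 (.n 2 (.l 1) (.n 2 (.l 1) (.l 0))) (.l 1)))
    [(6413090816, 131072000), (206158430208, 68719476736), (418311258112, 13493911552)] rfl (by decide +kernel)
end

mutual
theorem E15_c0_t25 : CovD 1 gE15 [(6675234816, 131072000), (206158430208, 68719476736), (418311258112, 13493911552)] :=
  covD_E kE15_eq (.n 1 (.n 1 (.n 2 (.l 1) (.n 2 (.l 1) (.l 0))) (.l 1)) (.l 1))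
    [(6675234816, 131072000), (206158430208, 68719476736), (418311258112, 13493911552)] rfl (by decide +kernel)
theorem E15_c0_t28 : CovD 1 gE15 [(6937378816, 131072000), (68719476736, 68719476736), (404817346560, 26987823104)] :=
  covD_E kE15_eq (.n 1 (.n 0 (.n 2 (.n 0 (.n 1 (.n 2 (.l 1) (.l 0)) (.l 1)) (.l 1)) (.l 0)) (.n 2 (.l 1) (.n 1 (.l 0) (.n 2 (.l 1) (.l 0))))) (.n 1 (.n 2 (.l 1) (.n 2 (.l 1) (.l 0))) (.l 1)))
    [(6937378816, 131072000), (68719476736, 68719476736), (404817346560, 26987823104)] rfl (by decide +kernel)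
end

mutual
theorem E15_c0_t29 : CovD 1 gE15 [(7199522816, 131072000), (68719476736, 68719476736), (404817346560, 26987823104)] :=
  covD_E kE15_eq (.n 1 (.n 2 (.l 1) (.n 2 (.l 1) (.n 0 (.l 0) (.n 0 (.l 0) (.l 1))))) (.l 1))
    [(7199522816, 131072000), (68719476736, 68719476736), (404817346560, 26987823104)] rfl (by decide +kernel)
theorem E15_c0_t30 : CovD 1 gE15 [(7068450816, 262144000), (206158430208, 68719476736), (404817346560, 26987823104)] :=
  covD_E kE15_eq (.l 1)
    [(7068450816, 262144000), (206158430208, 68719476736), (404817346560, 26987823104)] rfl (by decide +kernel)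
end

mutual
theorem E15_c0_t34 : CovD 1 gE15 [(6806306816, 524288000), (68719476736, 68719476736), (485780815872, 53975646208)] :=
  covD_E kE15_eq (.n 2 (.n 0 (.n 2 (.l 0) (.l 0)) (.n 2 (.n 1 (.l 0) (.n 0 (.l 0) (.n 2 (.n 1 (.l 0) (.l 1)) (.l 0)))) (.l 0))) (.n 2 (.l 0) (.l 0)))
    [(6806306816, 524288000), (68719476736, 68719476736), (485780815872, 53975646208)] rfl (by decide +kernel)
theorem E15_c0_t37 : CovD 1 gE15 [(6544162816, 262144000), (206158430208, 68719476736), (458792992768, 26987823104)] :=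
  covD_E kE15_eq (.n 1 (.n 2 (.n 0 (.l 0) (.n 1 (.l 0) (.n 1 (.l 0) (.l 0)))) (.l 0)) (.n 2 (.n 2 (.n 0 (.l 0) (.l 1)) (.l 0)) (.l 0)))
    [(6544162816, 262144000), (206158430208, 68719476736), (458792992768, 26987823104)] rfl (by decide +kernel)
end

mutual
theorem E15_c0_t38 : CovD 1 gE15 [(7068450816, 262144000), (206158430208, 68719476736), (458792992768, 26987823104)] :=
  covD_E kE15_eq (.n 1 (.n 2 (.n 0 (.n 2 (.n 1 (.l 1) (.l 1)) (.l 0)) (.l 1)) (.n 1 (.l 0) (.l 0))) (.n 2 (.l 1) (.n 1 (.l 0) (.l 0))))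
    [(7068450816, 262144000), (206158430208, 68719476736), (458792992768, 26987823104)] rfl (by decide +kernel)
theorem E15_c0_t39 : CovD 1 gE15 [(6806306816, 524288000), (206158430208, 68719476736), (512768638976, 26987823104)] :=
  covD_E kE15_eq (.n 2 (.n 1 (.l 0) (.l 0)) (.l 0))
    [(6806306816, 524288000), (206158430208, 68719476736), (512768638976, 26987823104)] rfl (by decide +kernel)
end

mutual
theorem E15_c0_t40 : CovD 1 gE15 [(6806306816, 524288000), (137438953472, 137438953472), (593732108288, 53975646208)] :=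
  covD_E kE15_eq (.n 2 (.n 1 (.n 2 (.l 0) (.l 0)) (.n 2 (.l 0) (.l 0))) (.n 1 (.n 2 (.l 0) (.l 0)) (.n 2 (.l 0) (.l 0))))
    [(6806306816, 524288000), (137438953472, 137438953472), (593732108288, 53975646208)] rfl (by decide +kernel)
theorem E15_c0_t41 : CovD 1 gE15 [(6806306816, 524288000), (137438953472, 137438953472), (755659046912, 107951292416)] :=
  covD_E kE15_eq (.n 2 (.n 2 (.n 1 (.n 2 (.l 0) (.l 0)) (.n 2 (.l 0) (.l 0))) (.n 0 (.n 2 (.l 0) (.l 0)) (.n 2 (.l 0) (.l 0)))) (.n 2 (.n 2 (.l 0) (.l 0)) (.n 2 (.l 0) (.l 0))))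
    [(6806306816, 524288000), (137438953472, 137438953472), (755659046912, 107951292416)] rfl (by decide +kernel)
end

mutual
theorem E15_c0_t43 : CovD 1 gE15 [(6806306816, 524288000), (137438953472, 137438953472), (1079512924160, 215902584832)] :=
  covD_E kE15_eq (.n 2 (.n 2 (.n 2 (.n 2 (.l 0) (.l 0)) (.n 2 (.l 0) (.l 0))) (.n 2 (.n 2 (.l 0) (.l 0)) (.n 2 (.l 0) (.l 0)))) (.n 2 (.n 2 (.n 2 (.l 0) (.l 0)) (.n 2 (.l 0) (.l 0))) (.n 2 (.n 0 (.l 0) (.l 0)) (.l 0))))
    [(6806306816, 524288000), (137438953472, 137438953472), (1079512924160, 215902584832)] rfl (by decide +kernel)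
theorem E15_c0_t44 : CovD 1 gE15 [(6806306816, 524288000), (137438953472, 137438953472), (1511318093824, 215902584832)] :=
  covD_E kE15_eq (.n 2 (.n 2 (.n 2 (.l 0) (.l 0)) (.n 2 (.l 0) (.l 0))) (.n 2 (.n 2 (.l 0) (.l 0)) (.n 2 (.l 0) (.l 0))))
    [(6806306816, 524288000), (137438953472, 137438953472), (1511318093824, 215902584832)] rfl (by decide +kernel)
end

theorem A15_c1_t2 : CovD 1 gA15 [(6806306816, 524288000), (171798691840, 34359738368), (1099511627776, 1099511627776)] :=
  covD_split 2 (by decide +kernel) A15_c1_t3 A15_c1_t4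

theorem A15_c1_t1 : CovD 1 gA15 [(6806306816, 524288000), (206158430208, 68719476736), (1099511627776, 1099511627776)] :=
  covD_split 1 (by decide +kernel) A15_c1_t2 A15_c1_t5

theorem A15_c1_t9 : CovD 1 gA15 [(6544162816, 262144000), (171798691840, 34359738368), (2748779069440, 549755813888)] :=
  covD_split 2 (by decide +kernel) A15_c1_t10 A15_c1_t11

theorem A15_c1_t12 : CovD 1 gA15 [(6544162816, 262144000), (240518168576, 34359738368), (2748779069440, 549755813888)] :=
  covD_split 2 (by decide +kernel) A15_c1_t13 A15_c1_t14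

theorem A15_c1_t8 : CovD 1 gA15 [(6544162816, 262144000), (206158430208, 68719476736), (2748779069440, 549755813888)] :=
  covD_split 1 (by decide +kernel) A15_c1_t9 A15_c1_t12

theorem A15_c1_t18 : CovD 1 gA15 [(7068450816, 262144000), (171798691840, 34359738368), (3023656976384, 274877906944)] :=
  covD_split 2 (by decide +kernel) A15_c1_t19 A15_c1_t20

theorem A15_c1_t16 : CovD 1 gA15 [(7068450816, 262144000), (171798691840, 34359738368), (2748779069440, 549755813888)] :=
  covD_split 2 (by decide +kernel) A15_c1_t17 A15_c1_t18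

theorem A15_c1_t21 : CovD 1 gA15 [(7068450816, 262144000), (240518168576, 34359738368), (2748779069440, 549755813888)] :=
  covD_split 2 (by decide +kernel) A15_c1_t22 A15_c1_t23

theorem A15_c1_t15 : CovD 1 gA15 [(7068450816, 262144000), (206158430208, 68719476736), (2748779069440, 549755813888)] :=
  covD_split 1 (by decide +kernel) A15_c1_t16 A15_c1_t21

theorem A15_c1_t7 : CovD 1 gA15 [(6806306816, 524288000), (206158430208, 68719476736), (2748779069440, 549755813888)] :=
  covD_split 0 (by decide +kernel) A15_c1_t8 A15_c1_t15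

theorem A15_c1_t32 : CovD 1 gA15 [(6413090816, 131072000), (171798691840, 34359738368), (3470333575168, 34359738368)] :=
  covD_split 0 (by decide +kernel) A15_c1_t33 A15_c1_t34

theorem A15_c1_t31 : CovD 1 gA15 [(6544162816, 262144000), (171798691840, 34359738368), (3470333575168, 34359738368)] :=
  covD_split 0 (by decide +kernel) A15_c1_t32 A15_c1_t35

theorem A15_c1_t30 : CovD 1 gA15 [(6544162816, 262144000), (171798691840, 34359738368), (3504693313536, 68719476736)] :=
  covD_split 2 (by decide +kernel) A15_c1_t31 A15_c1_t36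

theorem A15_c1_t28 : CovD 1 gA15 [(6544162816, 262144000), (171798691840, 34359738368), (3435973836800, 137438953472)] :=
  covD_split 2 (by decide +kernel) A15_c1_t29 A15_c1_t30

theorem A15_c1_t27 : CovD 1 gA15 [(6544162816, 262144000), (171798691840, 34359738368), (3573412790272, 274877906944)] :=
  covD_split 2 (by decide +kernel) A15_c1_t28 A15_c1_t37

theorem A15_c1_t41 : CovD 1 gA15 [(6544162816, 262144000), (240518168576, 34359738368), (3504693313536, 68719476736)] :=
  covD_split 2 (by decide +kernel) A15_c1_t42 A15_c1_t43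

theorem A15_c1_t39 : CovD 1 gA15 [(6544162816, 262144000), (240518168576, 34359738368), (3435973836800, 137438953472)] :=
  covD_split 2 (by decide +kernel) A15_c1_t40 A15_c1_t41

theorem A15_c1_t38 : CovD 1 gA15 [(6544162816, 262144000), (240518168576, 34359738368), (3573412790272, 274877906944)] :=
  covD_split 2 (by decide +kernel) A15_c1_t39 A15_c1_t44

theorem A15_c1_t26 : CovD 1 gA15 [(6544162816, 262144000), (206158430208, 68719476736), (3573412790272, 274877906944)] :=
  covD_split 1 (by decide +kernel) A15_c1_t27 A15_c1_t38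

theorem A15_c1_t50 : CovD 1 gA15 [(7068450816, 262144000), (154618822656, 17179869184), (3504693313536, 68719476736)] :=
  covD_split 2 (by decide +kernel) A15_c1_t51 A15_c1_t52

theorem A15_c1_t48 : CovD 1 gA15 [(7068450816, 262144000), (154618822656, 17179869184), (3435973836800, 137438953472)] :=
  covD_split 2 (by decide +kernel) A15_c1_t49 A15_c1_t50

theorem A15_c1_t47 : CovD 1 gA15 [(7068450816, 262144000), (171798691840, 34359738368), (3435973836800, 137438953472)] :=
  covD_split 1 (by decide +kernel) A15_c1_t48 A15_c1_t53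

theorem A15_c1_t46 : CovD 1 gA15 [(7068450816, 262144000), (171798691840, 34359738368), (3573412790272, 274877906944)] :=
  covD_split 2 (by decide +kernel) A15_c1_t47 A15_c1_t54

theorem A15_c1_t58 : CovD 1 gA15 [(7068450816, 262144000), (240518168576, 34359738368), (3504693313536, 68719476736)] :=
  covD_split 0 (by decide +kernel) A15_c1_t59 A15_c1_t60

theorem A15_c1_t56 : CovD 1 gA15 [(7068450816, 262144000), (240518168576, 34359738368), (3435973836800, 137438953472)] :=
  covD_split 2 (by decide +kernel) A15_c1_t57 A15_c1_t58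

theorem A15_c1_t55 : CovD 1 gA15 [(7068450816, 262144000), (240518168576, 34359738368), (3573412790272, 274877906944)] :=
  covD_split 2 (by decide +kernel) A15_c1_t56 A15_c1_t61

theorem A15_c1_t45 : CovD 1 gA15 [(7068450816, 262144000), (206158430208, 68719476736), (3573412790272, 274877906944)] :=
  covD_split 1 (by decide +kernel) A15_c1_t46 A15_c1_t55

theorem A15_c1_t25 : CovD 1 gA15 [(6806306816, 524288000), (206158430208, 68719476736), (3573412790272, 274877906944)] :=
  covD_split 0 (by decide +kernel) A15_c1_t26 A15_c1_t45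

theorem A15_c1_t24 : CovD 1 gA15 [(6806306816, 524288000), (206158430208, 68719476736), (3848290697216, 549755813888)] :=
  covD_split 2 (by decide +kernel) A15_c1_t25 A15_c1_t62

theorem A15_c1_t6 : CovD 1 gA15 [(6806306816, 524288000), (206158430208, 68719476736), (3298534883328, 1099511627776)] :=
  covD_split 2 (by decide +kernel) A15_c1_t7 A15_c1_t24

theorem A15_c1 : CovD 1 gA15 [(6806306816, 524288000), (206158430208, 68719476736), (2199023255552, 2199023255552)] :=
  covD_split 2 (by decide +kernel) A15_c1_t1 A15_c1_t6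

theorem B15_c0 : CovD 1 gB15 [(6806306816, 524288000), (137438953472, 137438953472), (68719476736, 68719476736)] :=
  covD_split 2 (by decide +kernel) B15_c0_t1 B15_c0_t2

theorem C15_c0_t3 : CovD 1 gC15 [(6806306816, 524288000), (17179869184, 17179869184), (549755813888, 549755813888)] :=
  covD_split 2 (by decide +kernel) C15_c0_t4 C15_c0_t5

theorem C15_c0_t2 : CovD 1 gC15 [(6806306816, 524288000), (34359738368, 34359738368), (549755813888, 549755813888)] :=
  covD_split 1 (by decide +kernel) C15_c0_t3 C15_c0_t6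

theorem C15_c0_t1 : CovD 1 gC15 [(6806306816, 524288000), (68719476736, 68719476736), (549755813888, 549755813888)] :=
  covD_split 1 (by decide +kernel) C15_c0_t2 C15_c0_t7

theorem C15_c0 : CovD 1 gC15 [(6806306816, 524288000), (137438953472, 137438953472), (549755813888, 549755813888)] :=
  covD_split 1 (by decide +kernel) C15_c0_t1 C15_c0_t8

theorem D15_c0_t2 : CovD 1 gD15 [(6806306816, 524288000), (137438953472, 137438953472), (1295415508992, 431805169664)] :=
  covD_split 2 (by decide +kernel) D15_c0_t3 D15_c0_t4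

theorem D15_c0 : CovD 1 gD15 [(6806306816, 524288000), (137438953472, 137438953472), (863610339328, 863610339328)] :=
  covD_split 2 (by decide +kernel) D15_c0_t1 D15_c0_t2

theorem E15_c0_t12 : CovD 1 gE15 [(6544162816, 262144000), (34359738368, 34359738368), (391323435008, 13493911552)] :=
  covD_split 0 (by decide +kernel) E15_c0_t13 E15_c0_t14

theorem E15_c0_t11 : CovD 1 gE15 [(6544162816, 262144000), (34359738368, 34359738368), (404817346560, 26987823104)] :=
  covD_split 2 (by decide +kernel) E15_c0_t12 E15_c0_t15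

theorem E15_c0_t17 : CovD 1 gE15 [(6413090816, 131072000), (103079215104, 34359738368), (404817346560, 26987823104)] :=
  covD_split 1 (by decide +kernel) E15_c0_t18 E15_c0_t19

theorem E15_c0_t16 : CovD 1 gE15 [(6544162816, 262144000), (103079215104, 34359738368), (404817346560, 26987823104)] :=
  covD_split 0 (by decide +kernel) E15_c0_t17 E15_c0_t20

theorem E15_c0_t10 : CovD 1 gE15 [(6544162816, 262144000), (68719476736, 68719476736), (404817346560, 26987823104)] :=
  covD_split 1 (by decide +kernel) E15_c0_t11 E15_c0_t16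

theorem E15_c0_t23 : CovD 1 gE15 [(6544162816, 262144000), (206158430208, 68719476736), (418311258112, 13493911552)] :=
  covD_split 0 (by decide +kernel) E15_c0_t24 E15_c0_t25

theorem E15_c0_t21 : CovD 1 gE15 [(6544162816, 262144000), (206158430208, 68719476736), (404817346560, 26987823104)] :=
  covD_split 2 (by decide +kernel) E15_c0_t22 E15_c0_t23

theorem E15_c0_t9 : CovD 1 gE15 [(6544162816, 262144000), (137438953472, 137438953472), (404817346560, 26987823104)] :=
  covD_split 1 (by decide +kernel) E15_c0_t10 E15_c0_t21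

theorem E15_c0_t27 : CovD 1 gE15 [(7068450816, 262144000), (68719476736, 68719476736), (404817346560, 26987823104)] :=
  covD_split 0 (by decide +kernel) E15_c0_t28 E15_c0_t29

theorem E15_c0_t26 : CovD 1 gE15 [(7068450816, 262144000), (137438953472, 137438953472), (404817346560, 26987823104)] :=
  covD_split 1 (by decide +kernel) E15_c0_t27 E15_c0_t30

theorem E15_c0_t8 : CovD 1 gE15 [(6806306816, 524288000), (137438953472, 137438953472), (404817346560, 26987823104)] :=
  covD_split 0 (by decide +kernel) E15_c0_t9 E15_c0_t26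

theorem E15_c0_t6 : CovD 1 gE15 [(6806306816, 524288000), (137438953472, 137438953472), (377829523456, 53975646208)] :=
  covD_split 2 (by decide +kernel) E15_c0_t7 E15_c0_t8

theorem E15_c0_t4 : CovD 1 gE15 [(6806306816, 524288000), (137438953472, 137438953472), (323853877248, 107951292416)] :=
  covD_split 2 (by decide +kernel) E15_c0_t5 E15_c0_t6

theorem E15_c0_t2 : CovD 1 gE15 [(6806306816, 524288000), (137438953472, 137438953472), (215902584832, 215902584832)] :=
  covD_split 2 (by decide +kernel) E15_c0_t3 E15_c0_t4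

theorem E15_c0_t36 : CovD 1 gE15 [(6806306816, 524288000), (206158430208, 68719476736), (458792992768, 26987823104)] :=
  covD_split 0 (by decide +kernel) E15_c0_t37 E15_c0_t38

theorem E15_c0_t35 : CovD 1 gE15 [(6806306816, 524288000), (206158430208, 68719476736), (485780815872, 53975646208)] :=
  covD_split 2 (by decide +kernel) E15_c0_t36 E15_c0_t39

theorem E15_c0_t33 : CovD 1 gE15 [(6806306816, 524288000), (137438953472, 137438953472), (485780815872, 53975646208)] :=
  covD_split 1 (by decide +kernel) E15_c0_t34 E15_c0_t35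

theorem E15_c0_t32 : CovD 1 gE15 [(6806306816, 524288000), (137438953472, 137438953472), (539756462080, 107951292416)] :=
  covD_split 2 (by decide +kernel) E15_c0_t33 E15_c0_t40

theorem E15_c0_t31 : CovD 1 gE15 [(6806306816, 524288000), (137438953472, 137438953472), (647707754496, 215902584832)] :=
  covD_split 2 (by decide +kernel) E15_c0_t32 E15_c0_t41

theorem E15_c0_t1 : CovD 1 gE15 [(6806306816, 524288000), (137438953472, 137438953472), (431805169664, 431805169664)] :=
  covD_split 2 (by decide +kernel) E15_c0_t2 E15_c0_t31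

theorem E15_c0_t42 : CovD 1 gE15 [(6806306816, 524288000), (137438953472, 137438953472), (1295415508992, 431805169664)] :=
  covD_split 2 (by decide +kernel) E15_c0_t43 E15_c0_t44

theorem E15_c0 : CovD 1 gE15 [(6806306816, 524288000), (137438953472, 137438953472), (863610339328, 863610339328)] :=
  covD_split 2 (by decide +kernel) E15_c0_t1 E15_c0_t42

end Pool.Agent.helper14.NS.Q150a
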