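import Pool.Agent.helper14.NS.Q150a.CZ_0
import Pool.Agent.helper14.NS.Q150a.CN1_0
import Pool.Agent.helper14.NS.Q150a.CN2_0
import Pool.Agent.helper14.NS.Q150a.CN3_0
import Pool.Agent.helper14.NS.Q150a.CN4_0
import Pool.Agent.helper14.NS.Q150a.CN5_0
import Pool.Agent.helper14.NS.Q150a.CN6_0
import Pool.Agent.helper14.NS.Q150a.CN7_0
import Pool.Agent.helper14.NS.Q150a.CN8_0
import Pool.Agent.helper14.NS.Q150a.CN9_0
import Pool.Agent.helper14.NS.Q150a.CN10_0
import Pool.Agent.helper14.NS.Q150a.CN11_0
import Pool.Agent.helper14.NS.Q150a.CN12_0
import Pool.Agent.helper14.NS.Q150a.CN13_0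
import Pool.Agent.helper14.NS.Q150a.CN14_0
import Pool.Agent.helper14.NS.Q150a.CN15_0
import Pool.Agent.helper14.NS.Q150a.CN15_1

/-!
Generated: all certificates of the table.
-/

namespace Pool.Agent.helper14.NS.Q150a

open Pool.Agent.helper31.IA (Z)
open Pool.Agent.helper31.IX (Op XOps runX Cov CovD cov_split covD_split)
open Pool.Agent.helper31.IC (TD)
open Pool.Agent.helper63.RG (reloc)
open Pool.Agent.helper63.NF hiding TD
open Pool.Agent.helper4.NS
open Pool.Agent.helper14.CF (xE covD_E)
open Pool.Agent.helper14.NR (share)

theorem certZ : CovD 1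
    [comp (PS0 tab) ρ4 4]
    [(6806306816, 524288000), (137438953472, 137438953472), (514026635264, 459051892736)] := by
  rw [← gZ_eq]; exact Z_c0

theorem certT : CovD 1
    [comp (PST tab 973078528000) ρ3 3]
    [(6806306816, 524288000), (137438953472, 137438953472)] := by
  rw [← gT_eq]; exact T_c0

theorem certS : CovD 0
    [PSS tab 16]
    [(6806306816, 524288000), (137438953472, 137438953472)] := by
  rw [← gS_eq]; exact S_c0

theorem certA1 : CovD 1
    [circ (cA tab 1) (PSm tab 1),
     altP (cA tab 1) (oCut tab 1),
     altP (cA tab 1) (oIn tab)]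
    [(6806306816, 524288000), (137438953472, 137438953472), (4398046511104, 4398046511104)] := by
  rw [← gA1_eq]; exact A1_c0

theorem certB1 : CovD 1
    [circ (cB tab 1) (PSm tab 1),
     altP (cB tab 1) (oCut tab 1)]
    [(6806306816, 524288000), (137438953472, 137438953472), (68719476736, 68719476736)] := by
  rw [← gB1_eq]; exact B1_c0

theorem certC1 : CovD 1
    [circ (cC tab) (PSm tab 1),
     comp (oC tab 1) ρ4 4]
    [(6806306816, 524288000), (137438953472, 137438953472), (549755813888, 549755813888)] := by
  rw [← gC1_eq]; exact C1_c0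

theorem certD1 : CovD 1
    [circ (cD tab 1) (PSm tab 1),
     comp (oD tab 1) ρ4 4]
    [(6806306816, 524288000), (137438953472, 137438953472), (863610339328, 863610339328)] := by
  rw [← gD1_eq]; exact D1_c0

theorem certE1 : CovD 1
    [circ (cE tab 1) (PSm tab 1),
     comp (oE tab 1) ρ4 4]
    [(6806306816, 524288000), (137438953472, 137438953472), (863610339328, 863610339328)] := by
  rw [← gE1_eq]; exact E1_c0

theorem certA2 : CovD 1
    [circ (cA tab 2) (PSm tab 2),
     altP (cA tab 2) (oCut tab 2),
     altP (cA tab 2) (oIn tab)]
    [(6806306816, 524288000), (137438953472, 137438953472), (4398046511104, 4398046511104)] := by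
  rw [← gA2_eq]; exact A2_c0

theorem certB2 : CovD 1
    [circ (cB tab 2) (PSm tab 2),
     altP (cB tab 2) (oCut tab 2)]
    [(6806306816, 524288000), (137438953472, 137438953472), (68719476736, 68719476736)] := by
  rw [← gB2_eq]; exact B2_c0

theorem certC2 : CovD 1
    [circ (cC tab) (PSm tab 2),
     comp (oC tab 2) ρ4 4]
    [(6806306816, 524288000), (137438953472, 137438953472), (549755813888, 549755813888)] := by
  rw [← gC2_eq]; exact C2_c0

theorem certD2 : CovD 1
    [circ (cD tab 2) (PSm tab 2),
     comp (oD tab 2) ρ4 4]
    [(6806306816, 524288000), (137438953472, 137438953472), (863610339328, 863610339328)] := by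
  rw [← gD2_eq]; exact D2_c0

theorem certE2 : CovD 1
    [circ (cE tab 2) (PSm tab 2),
     comp (oE tab 2) ρ4 4]
    [(6806306816, 524288000), (137438953472, 137438953472), (863610339328, 863610339328)] := by
  rw [← gE2_eq]; exact E2_c0

theorem certA3 : CovD 1
    [circ (cA tab 3) (PSm tab 3),
     altP (cA tab 3) (oCut tab 3),
     altP (cA tab 3) (oIn tab)]
    [(6806306816, 524288000), (137438953472, 137438953472), (4398046511104, 4398046511104)] := by
  rw [← gA3_eq]; exact A3_c0

theorem certB3 : CovD 1
    [circ (cB tab 3) (PSm tab 3),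
     altP (cB tab 3) (oCut tab 3)]
    [(6806306816, 524288000), (137438953472, 137438953472), (68719476736, 68719476736)] := by
  rw [← gB3_eq]; exact B3_c0

theorem certC3 : CovD 1
    [circ (cC tab) (PSm tab 3),
     comp (oC tab 3) ρ4 4]
    [(6806306816, 524288000), (137438953472, 137438953472), (549755813888, 549755813888)] := by
  rw [← gC3_eq]; exact C3_c0

theorem certD3 : CovD 1
    [circ (cD tab 3) (PSm tab 3),
     comp (oD tab 3) ρ4 4]
    [(6806306816, 524288000), (137438953472, 137438953472), (863610339328, 863610339328)] := by
  rw [← gD3_eq]; exact D3_c0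

theorem certE3 : CovD 1
    [circ (cE tab 3) (PSm tab 3),
     comp (oE tab 3) ρ4 4]
    [(6806306816, 524288000), (137438953472, 137438953472), (863610339328, 863610339328)] := by
  rw [← gE3_eq]; exact E3_c0

theorem certA4 : CovD 1
    [circ (cA tab 4) (PSm tab 4),
     altP (cA tab 4) (oCut tab 4),
     altP (cA tab 4) (oIn tab)]
    [(6806306816, 524288000), (137438953472, 137438953472), (4398046511104, 4398046511104)] := by
  rw [← gA4_eq]; exact A4_c0

theorem certB4 : CovD 1
    [circ (cB tab 4) (PSm tab 4),
     altP (cB tab 4) (oCut tab 4)]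
    [(6806306816, 524288000), (137438953472, 137438953472), (68719476736, 68719476736)] := by
  rw [← gB4_eq]; exact B4_c0

theorem certC4 : CovD 1
    [circ (cC tab) (PSm tab 4),
     comp (oC tab 4) ρ4 4]
    [(6806306816, 524288000), (137438953472, 137438953472), (549755813888, 549755813888)] := by
  rw [← gC4_eq]; exact C4_c0

theorem certD4 : CovD 1
    [circ (cD tab 4) (PSm tab 4),
     comp (oD tab 4) ρ4 4]
    [(6806306816, 524288000), (137438953472, 137438953472), (863610339328, 863610339328)] := by
  rw [← gD4_eq]; exact D4_c0

theorem certE4 : CovD 1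
    [circ (cE tab 4) (PSm tab 4),
     comp (oE tab 4) ρ4 4]
    [(6806306816, 524288000), (137438953472, 137438953472), (863610339328, 863610339328)] := by
  rw [← gE4_eq]; exact E4_c0

theorem certA5 : CovD 1
    [circ (cA tab 5) (PSm tab 5),
     altP (cA tab 5) (oCut tab 5),
     altP (cA tab 5) (oIn tab)]
    [(6806306816, 524288000), (137438953472, 137438953472), (4398046511104, 4398046511104)] := by
  rw [← gA5_eq]; exact A5_c0

theorem certB5 : CovD 1
    [circ (cB tab 5) (PSm tab 5),
     altP (cB tab 5) (oCut tab 5)]
    [(6806306816, 524288000), (137438953472, 137438953472), (68719476736, 68719476736)] := by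
  rw [← gB5_eq]; exact B5_c0

theorem certC5 : CovD 1
    [circ (cC tab) (PSm tab 5),
     comp (oC tab 5) ρ4 4]
    [(6806306816, 524288000), (137438953472, 137438953472), (549755813888, 549755813888)] := by
  rw [← gC5_eq]; exact C5_c0

theorem certD5 : CovD 1
    [circ (cD tab 5) (PSm tab 5),
     comp (oD tab 5) ρ4 4]
    [(6806306816, 524288000), (137438953472, 137438953472), (863610339328, 863610339328)] := by
  rw [← gD5_eq]; exact D5_c0

theorem certE5 : CovD 1
    [circ (cE tab 5) (PSm tab 5),
     comp (oE tab 5) ρ4 4]
    [(6806306816, 524288000), (137438953472, 137438953472), (863610339328, 863610339328)] := by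
  rw [← gE5_eq]; exact E5_c0

theorem certA6 : CovD 1
    [circ (cA tab 6) (PSm tab 6),
     altP (cA tab 6) (oCut tab 6),
     altP (cA tab 6) (oIn tab)]
    [(6806306816, 524288000), (137438953472, 137438953472), (4398046511104, 4398046511104)] := by
  rw [← gA6_eq]; exact A6_c0

theorem certB6 : CovD 1
    [circ (cB tab 6) (PSm tab 6),
     altP (cB tab 6) (oCut tab 6)]
    [(6806306816, 524288000), (137438953472, 137438953472), (68719476736, 68719476736)] := by
  rw [← gB6_eq]; exact B6_c0

theorem certC6 : CovD 1
    [circ (cC tab) (PSm tab 6),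
     comp (oC tab 6) ρ4 4]
    [(6806306816, 524288000), (137438953472, 137438953472), (549755813888, 549755813888)] := by
  rw [← gC6_eq]; exact C6_c0

theorem certD6 : CovD 1
    [circ (cD tab 6) (PSm tab 6),
     comp (oD tab 6) ρ4 4]
    [(6806306816, 524288000), (137438953472, 137438953472), (863610339328, 863610339328)] := by
  rw [← gD6_eq]; exact D6_c0

theorem certE6 : CovD 1
    [circ (cE tab 6) (PSm tab 6),
     comp (oE tab 6) ρ4 4]
    [(6806306816, 524288000), (137438953472, 137438953472), (863610339328, 863610339328)] := by
  rw [← gE6_eq]; exact E6_c0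

theorem certA7 : CovD 1
    [circ (cA tab 7) (PSm tab 7),
     altP (cA tab 7) (oCut tab 7),
     altP (cA tab 7) (oIn tab)]
    [(6806306816, 524288000), (137438953472, 137438953472), (4398046511104, 4398046511104)] := by
  rw [← gA7_eq]; exact A7_c0

theorem certB7 : CovD 1
    [circ (cB tab 7) (PSm tab 7),
     altP (cB tab 7) (oCut tab 7)]
    [(6806306816, 524288000), (137438953472, 137438953472), (68719476736, 68719476736)] := by
  rw [← gB7_eq]; exact B7_c0

theorem certC7 : CovD 1
    [circ (cC tab) (PSm tab 7),
     comp (oC tab 7) ρ4 4]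
    [(6806306816, 524288000), (137438953472, 137438953472), (549755813888, 549755813888)] := by
  rw [← gC7_eq]; exact C7_c0

theorem certD7 : CovD 1
    [circ (cD tab 7) (PSm tab 7),
     comp (oD tab 7) ρ4 4]
    [(6806306816, 524288000), (137438953472, 137438953472), (863610339328, 863610339328)] := by
  rw [← gD7_eq]; exact D7_c0

theorem certE7 : CovD 1
    [circ (cE tab 7) (PSm tab 7),
     comp (oE tab 7) ρ4 4]
    [(6806306816, 524288000), (137438953472, 137438953472), (863610339328, 863610339328)] := by
  rw [← gE7_eq]; exact E7_c0

theorem certA8 : CovD 1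
    [circ (cA tab 8) (PSm tab 8),
     altP (cA tab 8) (oCut tab 8),
     altP (cA tab 8) (oIn tab)]
    [(6806306816, 524288000), (137438953472, 137438953472), (4398046511104, 4398046511104)] := by
  rw [← gA8_eq]; exact A8_c0

theorem certB8 : CovD 1
    [circ (cB tab 8) (PSm tab 8),
     altP (cB tab 8) (oCut tab 8)]
    [(6806306816, 524288000), (137438953472, 137438953472), (68719476736, 68719476736)] := by
  rw [← gB8_eq]; exact B8_c0

theorem certC8 : CovD 1
    [circ (cC tab) (PSm tab 8),
     comp (oC tab 8) ρ4 4]
    [(6806306816, 524288000), (137438953472, 137438953472), (549755813888, 549755813888)] := by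
  rw [← gC8_eq]; exact C8_c0

theorem certD8 : CovD 1
    [circ (cD tab 8) (PSm tab 8),
     comp (oD tab 8) ρ4 4]
    [(6806306816, 524288000), (137438953472, 137438953472), (863610339328, 863610339328)] := by
  rw [← gD8_eq]; exact D8_c0

theorem certE8 : CovD 1
    [circ (cE tab 8) (PSm tab 8),
     comp (oE tab 8) ρ4 4]
    [(6806306816, 524288000), (137438953472, 137438953472), (863610339328, 863610339328)] := by
  rw [← gE8_eq]; exact E8_c0

theorem certA9 : CovD 1
    [circ (cA tab 9) (PSm tab 9),
     altP (cA tab 9) (oCut tab 9),
     altP (cA tab 9) (oIn tab)]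
    [(6806306816, 524288000), (137438953472, 137438953472), (4398046511104, 4398046511104)] := by
  rw [← gA9_eq]; exact A9_c0

theorem certB9 : CovD 1
    [circ (cB tab 9) (PSm tab 9),
     altP (cB tab 9) (oCut tab 9)]
    [(6806306816, 524288000), (137438953472, 137438953472), (68719476736, 68719476736)] := by
  rw [← gB9_eq]; exact B9_c0

theorem certC9 : CovD 1
    [circ (cC tab) (PSm tab 9),
     comp (oC tab 9) ρ4 4]
    [(6806306816, 524288000), (137438953472, 137438953472), (549755813888, 549755813888)] := by
  rw [← gC9_eq]; exact C9_c0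

theorem certD9 : CovD 1
    [circ (cD tab 9) (PSm tab 9),
     comp (oD tab 9) ρ4 4]
    [(6806306816, 524288000), (137438953472, 137438953472), (863610339328, 863610339328)] := by
  rw [← gD9_eq]; exact D9_c0

theorem certE9 : CovD 1
    [circ (cE tab 9) (PSm tab 9),
     comp (oE tab 9) ρ4 4]
    [(6806306816, 524288000), (137438953472, 137438953472), (863610339328, 863610339328)] := by
  rw [← gE9_eq]; exact E9_c0

theorem certA10 : CovD 1
    [circ (cA tab 10) (PSm tab 10),
     altP (cA tab 10) (oCut tab 10),
     altP (cA tab 10) (oIn tab)]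
    [(6806306816, 524288000), (137438953472, 137438953472), (4398046511104, 4398046511104)] := by
  rw [← gA10_eq]; exact A10_c0

theorem certB10 : CovD 1
    [circ (cB tab 10) (PSm tab 10),
     altP (cB tab 10) (oCut tab 10)]
    [(6806306816, 524288000), (137438953472, 137438953472), (68719476736, 68719476736)] := by
  rw [← gB10_eq]; exact B10_c0

theorem certC10 : CovD 1
    [circ (cC tab) (PSm tab 10),
     comp (oC tab 10) ρ4 4]
    [(6806306816, 524288000), (137438953472, 137438953472), (549755813888, 549755813888)] := by
  rw [← gC10_eq]; exact C10_c0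

theorem certD10 : CovD 1
    [circ (cD tab 10) (PSm tab 10),
     comp (oD tab 10) ρ4 4]
    [(6806306816, 524288000), (137438953472, 137438953472), (863610339328, 863610339328)] := by
  rw [← gD10_eq]; exact D10_c0

theorem certE10 : CovD 1
    [circ (cE tab 10) (PSm tab 10),
     comp (oE tab 10) ρ4 4]
    [(6806306816, 524288000), (137438953472, 137438953472), (863610339328, 863610339328)] := by
  rw [← gE10_eq]; exact E10_c0

theorem certA11 : CovD 1
    [circ (cA tab 11) (PSm tab 11),
     altP (cA tab 11) (oCut tab 11),
     altP (cA tab 11) (oIn tab)]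
    [(6806306816, 524288000), (137438953472, 137438953472), (4398046511104, 4398046511104)] := by
  rw [← gA11_eq]; exact A11_c0

theorem certB11 : CovD 1
    [circ (cB tab 11) (PSm tab 11),
     altP (cB tab 11) (oCut tab 11)]
    [(6806306816, 524288000), (137438953472, 137438953472), (68719476736, 68719476736)] := by
  rw [← gB11_eq]; exact B11_c0

theorem certC11 : CovD 1
    [circ (cC tab) (PSm tab 11),
     comp (oC tab 11) ρ4 4]
    [(6806306816, 524288000), (137438953472, 137438953472), (549755813888, 549755813888)] := by
  rw [← gC11_eq]; exact C11_c0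

theorem certD11 : CovD 1
    [circ (cD tab 11) (PSm tab 11),
     comp (oD tab 11) ρ4 4]
    [(6806306816, 524288000), (137438953472, 137438953472), (863610339328, 863610339328)] := by
  rw [← gD11_eq]; exact D11_c0

theorem certE11 : CovD 1
    [circ (cE tab 11) (PSm tab 11),
     comp (oE tab 11) ρ4 4]
    [(6806306816, 524288000), (137438953472, 137438953472), (863610339328, 863610339328)] := by
  rw [← gE11_eq]; exact E11_c0

theorem certA12 : CovD 1
    [circ (cA tab 12) (PSm tab 12),
     altP (cA tab 12) (oCut tab 12),
     altP (cA tab 12) (oIn tab)]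
    [(6806306816, 524288000), (137438953472, 137438953472), (4398046511104, 4398046511104)] := by
  rw [← gA12_eq]; exact A12_c0

theorem certB12 : CovD 1
    [circ (cB tab 12) (PSm tab 12),
     altP (cB tab 12) (oCut tab 12)]
    [(6806306816, 524288000), (137438953472, 137438953472), (68719476736, 68719476736)] := by
  rw [← gB12_eq]; exact B12_c0

theorem certC12 : CovD 1
    [circ (cC tab) (PSm tab 12),
     comp (oC tab 12) ρ4 4]
    [(6806306816, 524288000), (137438953472, 137438953472), (549755813888, 549755813888)] := by
  rw [← gC12_eq]; exact C12_c0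

theorem certD12 : CovD 1
    [circ (cD tab 12) (PSm tab 12),
     comp (oD tab 12) ρ4 4]
    [(6806306816, 524288000), (137438953472, 137438953472), (863610339328, 863610339328)] := by
  rw [← gD12_eq]; exact D12_c0

theorem certE12 : CovD 1
    [circ (cE tab 12) (PSm tab 12),
     comp (oE tab 12) ρ4 4]
    [(6806306816, 524288000), (137438953472, 137438953472), (863610339328, 863610339328)] := by
  rw [← gE12_eq]; exact E12_c0

theorem certA13 : CovD 1
    [circ (cA tab 13) (PSm tab 13),
     altP (cA tab 13) (oCut tab 13),
     altP (cA tab 13) (oIn tab)]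
    [(6806306816, 524288000), (137438953472, 137438953472), (4398046511104, 4398046511104)] := by
  rw [← gA13_eq]; exact A13_c0

theorem certB13 : CovD 1
    [circ (cB tab 13) (PSm tab 13),
     altP (cB tab 13) (oCut tab 13)]
    [(6806306816, 524288000), (137438953472, 137438953472), (68719476736, 68719476736)] := by
  rw [← gB13_eq]; exact B13_c0

theorem certC13 : CovD 1
    [circ (cC tab) (PSm tab 13),
     comp (oC tab 13) ρ4 4]
    [(6806306816, 524288000), (137438953472, 137438953472), (549755813888, 549755813888)] := by
  rw [← gC13_eq]; exact C13_c0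

theorem certD13 : CovD 1
    [circ (cD tab 13) (PSm tab 13),
     comp (oD tab 13) ρ4 4]
    [(6806306816, 524288000), (137438953472, 137438953472), (863610339328, 863610339328)] := by
  rw [← gD13_eq]; exact D13_c0

theorem certE13 : CovD 1
    [circ (cE tab 13) (PSm tab 13),
     comp (oE tab 13) ρ4 4]
    [(6806306816, 524288000), (137438953472, 137438953472), (863610339328, 863610339328)] := by
  rw [← gE13_eq]; exact E13_c0

theorem certA14 : CovD 1
    [circ (cA tab 14) (PSm tab 14),
     altP (cA tab 14) (oCut tab 14),
     altP (cA tab 14) (oIn tab)]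
    [(6806306816, 524288000), (137438953472, 137438953472), (4398046511104, 4398046511104)] := by
  rw [← gA14_eq]; exact A14_c0

theorem certB14 : CovD 1
    [circ (cB tab 14) (PSm tab 14),
     altP (cB tab 14) (oCut tab 14)]
    [(6806306816, 524288000), (137438953472, 137438953472), (68719476736, 68719476736)] := by
  rw [← gB14_eq]; exact B14_c0

theorem certC14 : CovD 1
    [circ (cC tab) (PSm tab 14),
     comp (oC tab 14) ρ4 4]
    [(6806306816, 524288000), (137438953472, 137438953472), (549755813888, 549755813888)] := by
  rw [← gC14_eq]; exact C14_c0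

theorem certD14 : CovD 1
    [circ (cD tab 14) (PSm tab 14),
     comp (oD tab 14) ρ4 4]
    [(6806306816, 524288000), (137438953472, 137438953472), (863610339328, 863610339328)] := by
  rw [← gD14_eq]; exact D14_c0

theorem certE14 : CovD 1
    [circ (cE tab 14) (PSm tab 14),
     comp (oE tab 14) ρ4 4]
    [(6806306816, 524288000), (137438953472, 137438953472), (863610339328, 863610339328)] := by
  rw [← gE14_eq]; exact E14_c0

theorem A15_a0 : CovD 1 gA15 [(6806306816, 524288000), (137438953472, 137438953472), (2199023255552, 2199023255552)] :=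
  covD_split 1 (by decide +kernel) A15_c0 A15_c1

theorem A15_a1 : CovD 1 gA15 [(6806306816, 524288000), (137438953472, 137438953472), (4398046511104, 4398046511104)] :=
  covD_split 2 (by decide +kernel) A15_a0 A15_c2

theorem certA15 : CovD 1
    [circ (cA tab 15) (PSl tab 15),
     altP (cA tab 15) (oCut tab 15),
     altP (cA tab 15) (oIn tab)]
    [(6806306816, 524288000), (137438953472, 137438953472), (4398046511104, 4398046511104)] := by
  rw [← gA15_eq]; exact A15_a1

theorem certB15 : CovD 1
    [circ (cB tab 15) (PSl tab 15),
     altP (cB tab 15) (oCut tab 15)]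
    [(6806306816, 524288000), (137438953472, 137438953472), (68719476736, 68719476736)] := by
  rw [← gB15_eq]; exact B15_c0

theorem certC15 : CovD 1
    [circ (cC tab) (PSl tab 15),
     comp (oC tab 15) ρ4 4]
    [(6806306816, 524288000), (137438953472, 137438953472), (549755813888, 549755813888)] := by
  rw [← gC15_eq]; exact C15_c0

theorem certD15 : CovD 1
    [circ (cD tab 15) (PSl tab 15),
     comp (oD tab 15) ρ4 4]
    [(6806306816, 524288000), (137438953472, 137438953472), (863610339328, 863610339328)] := by
  rw [← gD15_eq]; exact D15_c0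

theorem certE15 : CovD 1
    [circ (cE tab 15) (PSl tab 15),
     comp (oE tab 15) ρ4 4]
    [(6806306816, 524288000), (137438953472, 137438953472), (863610339328, 863610339328)] := by
  rw [← gE15_eq]; exact E15_c0

/-- the certificates of the piece -/
theorem certs : CertsS tab 16 973078528000 (6806306816, 524288000) (137438953472, 137438953472) (4398046511104, 4398046511104) (68719476736, 68719476736) (549755813888, 549755813888) (863610339328, 863610339328) (514026635264, 459051892736) where
  A := by
    intro n h1 h2
    match n, h1, h2 with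
    | 1, _, _ => exact certA1
    | 2, _, _ => exact certA2
    | 3, _, _ => exact certA3
    | 4, _, _ => exact certA4
    | 5, _, _ => exact certA5
    | 6, _, _ => exact certA6
    | 7, _, _ => exact certA7
    | 8, _, _ => exact certA8
    | 9, _, _ => exact certA9
    | 10, _, _ => exact certA10
    | 11, _, _ => exact certA11
    | 12, _, _ => exact certA12
    | 13, _, _ => exact certA13
    | 14, _, _ => exact certA14
    | 15, _, _ => exact certA15
    | 0, h, _ => exact absurd h (by decide)
    | n + 16, _, h => exact absurd h (by omega)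
  B := by
    intro n h1 h2
    match n, h1, h2 with
    | 1, _, _ => exact certB1
    | 2, _, _ => exact certB2
    | 3, _, _ => exact certB3
    | 4, _, _ => exact certB4
    | 5, _, _ => exact certB5
    | 6, _, _ => exact certB6
    | 7, _, _ => exact certB7
    | 8, _, _ => exact certB8
    | 9, _, _ => exact certB9
    | 10, _, _ => exact certB10
    | 11, _, _ => exact certB11
    | 12, _, _ => exact certB12
    | 13, _, _ => exact certB13
    | 14, _, _ => exact certB14
    | 15, _, _ => exact certB15
    | 0, h, _ => exact absurd h (by decide)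
    | n + 16, _, h => exact absurd h (by omega)
  C := by
    intro _
    intro n h1 h2
    match n, h1, h2 with
    | 1, _, _ => exact certC1
    | 2, _, _ => exact certC2
    | 3, _, _ => exact certC3
    | 4, _, _ => exact certC4
    | 5, _, _ => exact certC5
    | 6, _, _ => exact certC6
    | 7, _, _ => exact certC7
    | 8, _, _ => exact certC8
    | 9, _, _ => exact certC9
    | 10, _, _ => exact certC10
    | 11, _, _ => exact certC11
    | 12, _, _ => exact certC12
    | 13, _, _ => exact certC13
    | 14, _, _ => exact certC14
    | 15, _, _ => exact certC15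
    | 0, h, _ => exact absurd h (by decide)
    | n + 16, _, h => exact absurd h (by omega)
  D := by
    intro n h1 h2
    match n, h1, h2 with
    | 1, _, _ => exact certD1
    | 2, _, _ => exact certD2
    | 3, _, _ => exact certD3
    | 4, _, _ => exact certD4
    | 5, _, _ => exact certD5
    | 6, _, _ => exact certD6
    | 7, _, _ => exact certD7
    | 8, _, _ => exact certD8
    | 9, _, _ => exact certD9
    | 10, _, _ => exact certD10
    | 11, _, _ => exact certD11
    | 12, _, _ => exact certD12
    | 13, _, _ => exact certD13
    | 14, _, _ => exact certD14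
    | 15, _, _ => exact certD15
    | 0, h, _ => exact absurd h (by decide)
    | n + 16, _, h => exact absurd h (by omega)
  E := by
    intro n h1 h2
    match n, h1, h2 with
    | 1, _, _ => exact certE1
    | 2, _, _ => exact certE2
    | 3, _, _ => exact certE3
    | 4, _, _ => exact certE4
    | 5, _, _ => exact certE5
    | 6, _, _ => exact certE6
    | 7, _, _ => exact certE7
    | 8, _, _ => exact certE8
    | 9, _, _ => exact certE9
    | 10, _, _ => exact certE10
    | 11, _, _ => exact certE11
    | 12, _, _ => exact certE12
    | 13, _, _ => exact certE13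
    | 14, _, _ => exact certE14
    | 15, _, _ => exact certE15
    | 0, h, _ => exact absurd h (by decide)
    | n + 16, _, h => exact absurd h (by omega)
  Z := certZ
  T := certT
  S := certS

end Pool.Agent.helper14.NS.Q150a
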